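import Pool.Agent.H66.BP.Defs

/-! # MP_d8fe2e_gt: the targets of the modules -/

open MeasureTheory Set Filter Topology Metric
open scoped Real ENNReal NNReal ComplexConjugate ContDiff

namespace Pool.Agent.H66.BP

/-! ## Group G: geometry -/

/-- (STRIP) every convex body is a strip -/
def T_STRIP : Prop := ∀ K : Set E, IsBody K → ∃ S : Strip, S.set = K

/-- (FRN) the boundary of a strip -/
def T_FRN : Prop := ∀ S : Strip, frontier S.set =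
  {y | y 1 ∈ Icc S.a S.b ∧ y 0 = S.T (y 1)} ∪ {y | y 1 ∈ Icc S.a S.b ∧ y 0 = S.B (y 1)} ∪
  {y | y 1 = S.a ∧ S.B S.a ≤ y 0 ∧ y 0 ≤ S.T S.a} ∪
  {y | y 1 = S.b ∧ S.B S.b ≤ y 0 ∧ y 0 ≤ S.T S.b}

/-- (GRH) arc length of the graph of a convex or concave function -/
def T_GRH : Prop := ∀ (a b : ℝ) (f : ℝ → ℝ), a < b →
  (ConvexOn ℝ (Icc a b) f ∨ ConcaveOn ℝ (Icc a b) f) → ContinuousOn f (Icc a b) →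
  ∀ A : Set ℝ, MeasurableSet A → A ⊆ Ioo a b →
    (μH[1] : Measure E) ((fun x : ℝ => (!₂[f x, x] : E)) '' A) =
      ∫⁻ x in A, ENNReal.ofReal (al f x)

/-- (ALI) the length density is integrable and bounds the oscillation -/
def T_ALI : Prop := ∀ (a b : ℝ) (f : ℝ → ℝ), a < b →
  (ConvexOn ℝ (Icc a b) f ∨ ConcaveOn ℝ (Icc a b) f) → ContinuousOn f (Icc a b) →
  IntervalIntegrable (al f) volume a b ∧ IntervalIntegrable (rd f) volume a b ∧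
  ∀ x ∈ Icc a b, ∀ y ∈ Icc a b, x ≤ y →
    (∫ u in x..y, rd f u = f y - f x) ∧ |f y - f x| ≤ ∫ u in a..b, al f u

/-- (REP) the boundary integral of a strip -/
def T_REP : Prop := ∀ S : Strip, bdm S.set Set.univ < ⊤ ∧ ∀ z, FK S.set z = S.F z

/-- (BAS) basic properties of `F_K` -/
def T_BAS : Prop := ∀ K : Set E, IsBody K →
  Differentiable ℂ (FK K) ∧ 0 < (FK K 0).re ∧ (FK K 0).im = 0 ∧
  bdm K Set.univ = ENNReal.ofReal (FK K 0).re ∧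
  (∀ z, ‖FK K z‖ ≤ (FK K 0).re * Real.exp (hK K (z.1.re, z.2.re))) ∧
  (∀ z : ℂ × ℂ, FK K (conj z.1, conj z.2) = conj (FK K z))

/-- (HS) basic properties of the support function -/
def T_HS : Prop := ∀ K : Set E, IsBody K →
  (∀ u v, hK K (u + v) ≤ hK K u + hK K v) ∧
  (∀ (c : ℝ) u, 0 ≤ c → hK K (c • u) = c * hK K u) ∧
  (∃ M : ℝ, 0 ≤ M ∧ ∀ u, |hK K u| ≤ M * ‖u‖) ∧ Continuous (hK K) ∧
  (∀ u, u ≠ 0 → 0 < hK K u + hK K (-u))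

/-- (HH) basic properties of the mean support function -/
def T_HH : Prop := ∀ K : Set E, IsBody K →
  (∀ z z', hh K (z + z') ≤ hh K z + hh K z') ∧
  (∀ (c : ℂ) z, hh K (c • z) = ‖c‖ * hh K z) ∧
  (∃ M : ℝ, 0 ≤ M ∧ ∀ z, hh K z ≤ M * ‖z‖) ∧
  (∀ x : ℝ × ℝ, hh K (cx x) = (hK K x + hK K (-x)) / π)

/-- (DIFF) the law of the difference determines `F_K(z) F_K(-z)` up to normalisation -/
def T_DIFF : Prop := ∀ K H : Set E, IsBody K → IsBody H → diffLaw K = diffLaw H →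
  ∀ z, FK K z * FK K (-z) * (FK H 0) ^ 2 = FK H z * FK H (-z) * (FK K 0) ^ 2

/-- (ROT) strips in arbitrary directions -/
def T_ROT : Prop := ∀ K : Set E, IsBody K → ∃ ρ > 0, ∀ v : ℝ × ℝ, v.1 ^ 2 + v.2 ^ 2 = 1 →
  ∃ S : Strip, (∀ l : ℂ, FK K (l • cx v) = S.F (0, l)) ∧ S.b = hK K v ∧ S.a = - hK K (-v) ∧
    (∃ x ∈ Icc S.a S.b, ρ ≤ S.T x - S.B x) ∧ ρ ≤ S.b - S.a

/-- (L0S) no zeros far from the imaginary axis -/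
def T_L0S : Prop := ∀ ρ p : ℝ, 0 < ρ → 0 < p → ∃ C > 0, ∀ S : Strip, ρ ≤ S.b - S.a →
  (∃ x ∈ Icc S.a S.b, ρ ≤ S.T x - S.B x) → (S.F 0).re ≤ p →
  ∀ l : ℂ, C * Real.log (2 + ‖l‖) ≤ l.re →
    1 ≤ (l * S.F (0, l) * Complex.exp (-(l * (S.b : ℂ)))).re

/-- (NEG) the reflected strip -/
def T_NEG : Prop := ∀ S : Strip, S.neg.set = (fun y => -y) '' S.set ∧
  (∀ z, S.neg.F z = S.F (-z)) ∧ S.neg.μT = S.μB ∧ S.neg.μB = S.μT ∧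
  (∀ w, S.neg.hT w = - S.gB w) ∧ (∀ w, S.neg.gB w = - S.hT w)

/-- (SUPD) the derivative of the support function -/
def T_SUPD : Prop := ∀ (S : Strip) (w : ℝ),
  HasDerivWithinAt S.hT (S.a + (S.μT (Iic w)).toReal) (Ioi w) w

/-- (HTK) support functions of a strip -/
def T_HTK : Prop := ∀ (S : Strip) (w : ℝ), S.hT w = hK S.set (1, w) ∧
  S.gB w = - hK S.set (-1, -w) ∧ S.gB w < S.hT w

/-- (BACK) the support function determines the body -/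
def T_BACK : Prop := ∀ K H : Set E, IsBody K → IsBody H → ∀ t : ℝ × ℝ,
  ((∀ u : ℝ × ℝ, hK H u = hK K u + (t.1 * u.1 + t.2 * u.2)) →
    ∃ s : E, H = (fun x => x + s) '' K) ∧
  ((∀ u : ℝ × ℝ, hK H u = hK K (-u) + (t.1 * u.1 + t.2 * u.2)) →
    ∃ s : E, H = (fun x => -x + s) '' K)

/-! ## Group A: sub-mean functions and Jensen sums -/

/-- (SMP) Poisson inequality for sub-mean functions -/
def T_SMP : Prop := ∀ u : ℂ → ℝ, SubM u → ∀ (c p : ℂ) (R : ℝ), 0 < R → p ∈ ball c R →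
  u p ≤ Real.circleAverage (fun z => poissonKernel c p z * u z) c R

/-- (QL) two constants: maximum principle on an annulus -/
def T_QL : Prop := ∀ u : ℂ → ℝ, SubM u → ∀ (δ R A B : ℝ), 0 < δ → δ < 1 → 1 < R → 0 ≤ B →
  (∀ l : ℂ, ‖l‖ = δ → u l ≤ A) → (∀ l : ℂ, ‖l‖ = R → u l ≤ A + B) →
  u 1 ≤ A + B * (Real.log (1 / δ) / Real.log (R / δ))

/-- (PLOG) Poisson inequality for the logarithm of an entire function -/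
def T_PLOG : Prop := ∀ f : ℂ → ℂ, Differentiable ℂ f → ∀ (p : ℂ) (R : ℝ), 0 < R →
  p ∈ ball (0 : ℂ) R → f p ≠ 0 →
  Real.log ‖f p‖ ≤ Real.circleAverage (fun z => poissonKernel 0 p z * Real.log ‖f z‖) 0 R

/-- (LOW) lower bound for the mean of the logarithm of a function with zeros near the imaginary
axis -/
def T_LOW : Prop := ∀ C p A : ℝ, 0 < C → 0 < p → 0 < A → ∃ C' > 0, ∀ (f : ℂ → ℂ) (h₁ h₂ : ℝ),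
  |h₁| ≤ A → |h₂| ≤ A → 0 ≤ h₁ + h₂ → Differentiable ℂ f → ‖f 0‖ = p →
  (∀ l : ℂ, ‖f l‖ ≤ p * Real.exp (max (l.re * h₁) (-l.re * h₂))) →
  (∀ l : ℂ, C * Real.log (2 + ‖l‖) ≤ |l.re| →
    Real.exp (max (l.re * h₁) (-l.re * h₂)) ≤ (1 + ‖l‖) * ‖f l‖) →
  ∀ t : ℝ, 0 < t → Real.log p + t * ((h₁ + h₂) / π) - C' * Real.log (2 + t) ≤
    Real.circleAverage (fun z => Real.log ‖f z‖) 0 t

/-- (JEN) Jensen formula for the sums `J` -/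
def T_JEN : Prop := ∀ F : ℂ × ℂ → ℂ, Differentiable ℂ F → F 0 ≠ 0 → ∀ (z : ℂ × ℂ) (t : ℝ), 0 < t →
  J (oF F) z t = Real.circleAverage (fun s : ℂ => Real.log ‖F (s • z)‖) 0 t - Real.log ‖F 0‖

/-! ## Group S: the splitting of the zeros -/

/-- an analytic family of monic polynomials near `0` -/
def AnFam (p : ℂ → Polynomial ℂ) : Prop :=
  (∃ n : ℕ, ∀ᶠ s in 𝓝 (0 : ℂ), (p s).Monic ∧ (p s).natDegree = n) ∧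
  ∀ k : ℕ, AnalyticAt ℂ (fun s => (p s).coeff k) 0

/-- (AP) argument principle with a weight -/
def T_AP : Prop := ∀ (f φ : ℂ → ℂ) (c : ℂ) (R : ℝ), 0 < R → AnalyticOnNhd ℂ f (closedBall c R) →
  Differentiable ℂ φ → (∀ z ∈ sphere c R, f z ≠ 0) →
  (∮ z in C(c, R), φ z * (deriv f z / f z)) =
    2 * π * Complex.I * ∑ᶠ z ∈ ball c R, (analyticOrderNatAt f z : ℂ) * φ z

/-- (RC) continuity of the roots of monic polynomials -/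
def T_RC : Prop := ∀ (X : Type) (l : Filter X) (p : X → Polynomial ℂ) (q : Polynomial ℂ) (n : ℕ),
  (∀ᶠ i in l, (p i).Monic ∧ (p i).natDegree = n) → q.Monic → q.natDegree = n →
  (∀ k, Tendsto (fun i => (p i).coeff k) l (𝓝 (q.coeff k))) →
  ∀ ζ : ℂ, ∃ ε₁ > 0, ∀ ε : ℝ, 0 < ε → ε < ε₁ →
    ∀ᶠ i in l, ∑ᶠ x ∈ ball ζ ε, (p i).rootMultiplicity x = q.rootMultiplicity ζ

/-- (WP) cluster polynomials -/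
def T_WP : Prop := ∀ f : ℂ × ℂ → ℂ, Differentiable ℂ f → ∀ ζ₀ : ℂ, (∃ ζ, f (0, ζ) ≠ 0) →
  ∃ ε₁ > 0, ∀ ε : ℝ, 0 < ε → ε < ε₁ → ∃ p : ℂ → Polynomial ℂ, AnFam p ∧
    (p 0 = (Polynomial.X - Polynomial.C ζ₀) ^ (p 0).natDegree) ∧
    ∀ᶠ s in 𝓝 (0 : ℂ), (∀ ζ, (p s).IsRoot ζ → ζ ∈ ball ζ₀ ε) ∧
      ∀ ζ ∈ ball ζ₀ ε, (p s).rootMultiplicity ζ = analyticOrderNatAt (fun ξ => f (s, ξ)) ζ

/-- (ALG) common factors of analytic families of polynomials -/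
def T_ALG : Prop := ∀ p₁ p₂ q₁ q₂ : ℂ → Polynomial ℂ, AnFam p₁ → AnFam p₂ → AnFam q₁ → AnFam q₂ →
  (∀ᶠ s in 𝓝 (0 : ℂ), p₁ s * p₂ s = q₁ s * q₂ s) →
  ∃ a b c d : ℂ → Polynomial ℂ, AnFam a ∧ AnFam b ∧ AnFam c ∧ AnFam d ∧
    (∀ᶠ s in 𝓝 (0 : ℂ), p₁ s = a s * b s ∧ q₁ s = a s * c s ∧ p₂ s = c s * d s ∧
      q₂ s = b s * d s) ∧
    ∀ᶠ s in 𝓝[≠] (0 : ℂ), IsCoprime (b s) (c s)

/-- an analytic family of monic polynomials near `z₀ ∈ ℂ²` -/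
def AnFam2 (z₀ : ℂ × ℂ) (p : ℂ × ℂ → Polynomial ℂ) : Prop :=
  (∃ n : ℕ, ∀ᶠ z in 𝓝 z₀, (p z).Monic ∧ (p z).natDegree = n) ∧
  ∀ k : ℕ, AnalyticAt ℂ (fun z => (p z).coeff k) z₀

/-- (LOC) local structure of the zeros of `F` and `G` -/
def T_LOC : Prop := ∀ F G : ℂ × ℂ → ℂ, Differentiable ℂ F → Differentiable ℂ G → F 0 ≠ 0 →
  G 0 ≠ 0 → (∀ z, F z * F (-z) = G z * G (-z)) → ∀ (z₀ : ℂ × ℂ) (ζ₀ : ℂ), z₀ ≠ 0 → ζ₀ ≠ 0 →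
  ∀ ε₀ > 0, ∃ ε > 0, ε < ε₀ ∧ ∃ a b c d : ℂ × ℂ → Polynomial ℂ,
    AnFam2 z₀ a ∧ AnFam2 z₀ b ∧ AnFam2 z₀ c ∧ AnFam2 z₀ d ∧
    (∀ ζ, (a z₀).IsRoot ζ ∨ (b z₀).IsRoot ζ ∨ (c z₀).IsRoot ζ ∨ (d z₀).IsRoot ζ → ζ = ζ₀) ∧
    (∀ᶠ z in 𝓝 z₀,
      (∀ ζ, (a z).IsRoot ζ ∨ (b z).IsRoot ζ ∨ (c z).IsRoot ζ ∨ (d z).IsRoot ζ →
        ζ ∈ ball ζ₀ ε) ∧
      ∀ ζ ∈ ball ζ₀ ε,
        oF F z ζ = (a z).rootMultiplicity ζ + (b z).rootMultiplicity ζ ∧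
        oF G z ζ = (a z).rootMultiplicity ζ + (c z).rootMultiplicity ζ ∧
        oF F z (-ζ) = (c z).rootMultiplicity ζ + (d z).rootMultiplicity ζ ∧
        oF G z (-ζ) = (b z).rootMultiplicity ζ + (d z).rootMultiplicity ζ) ∧
    (∀ᶠ z in 𝓝 z₀, (∀ c' : ℂ, z ≠ c' • z₀) → ∀ ζ, ¬ ((b z).IsRoot ζ ∧ (c z).IsRoot ζ))

/-- (STAR) the splitting -/
def T_STAR : Prop := ∀ F G : ℂ × ℂ → ℂ, Differentiable ℂ F → Differentiable ℂ G → F 0 ≠ 0 →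
  G 0 ≠ 0 → (∀ z, F z * F (-z) = G z * G (-z)) →
  ∃ P Q : ℂ × ℂ → ℂ → ℕ, (∀ z ζ, P z ζ + Q z ζ = oF F z ζ) ∧
    (∀ z ζ, P z (-ζ) + Q z ζ = oF G z ζ) ∧
    (∀ (c : ℂ) z ζ, c ≠ 0 → P (c • z) ζ = P z (c * ζ) ∧ Q (c • z) ζ = Q z (c * ζ)) ∧
    Reg P ∧ Reg Q

/-- (JC) the Jensen sums of a regular family are continuous and sub-mean along lines -/
def T_JC : Prop := ∀ (F : ℂ × ℂ → ℂ) (D : ℂ × ℂ → ℂ → ℕ), Differentiable ℂ F → F 0 ≠ 0 →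
  (∀ z ζ, D z ζ ≤ oF F z ζ) → Reg D → ∀ (z d : ℂ × ℂ) (t : ℝ), 0 < t →
  SubM (fun s => J D (z + s • d) t)

/-- (JM) elementary properties of the Jensen sums -/
def T_JM : Prop := ∀ (F : ℂ × ℂ → ℂ) (D : ℂ × ℂ → ℂ → ℕ), Differentiable ℂ F → F 0 ≠ 0 →
  (∀ z ζ, D z ζ ≤ oF F z ζ) →
  (∀ z t, 0 ≤ J D z t) ∧ (∀ z, MonotoneOn (J D z) (Ici 0)) ∧ (∀ t, J D 0 t = 0) ∧
  (∀ (c : ℂ) z t, c ≠ 0 → (∀ ζ, D (c • z) ζ = D z (c * ζ)) → J D (c • z) t = J D z (‖c‖ * t)) ∧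
  (∀ D' : ℂ × ℂ → ℂ → ℕ, (∀ z ζ, D z ζ + D' z ζ = oF F z ζ) →
    ∀ z t, J D z t + J D' z t = J (oF F) z t) ∧
  (∀ (z : ℂ × ℂ) (t q : ℝ), 0 < t → 1 < q → (∀ ζ, t ≤ ‖ζ‖ → ‖ζ‖ ≤ q ^ 2 * t → D z ζ = 0) →
    J D z (q ^ 2 * t) - 2 * J D z (q * t) + J D z t = 0)

/-! ## Group C: soft analysis of the Jensen sums -/

/-- (EQ) upper equicontinuity of the Jensen sums at multiples of real vectors -/
def T_EQ : Prop := ∀ (D : JData) (x : ℝ × ℝ) (l : ℂ) (z : ℂ × ℂ) (r t : ℝ), 0 < t →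
  ‖z - l • cx x‖ < r →
  D.JP z t ≤ (r + ‖z - l • cx x‖) / (r - ‖z - l • cx x‖) *
      (r * D.M * t + D.C * Real.log (2 + t * ‖l • cx x‖) + D.JP (l • cx x) t) ∧
  D.JQ z t ≤ (r + ‖z - l • cx x‖) / (r - ‖z - l • cx x‖) *
      (r * D.M * t + D.C * Real.log (2 + t * ‖l • cx x‖) + D.JQ (l • cx x) t)

/-- (S2) a direction without `P` does not see `P` -/
def T_S2 : Prop := ∀ (D : JData) (u x : ℝ × ℝ),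
  (∀ ε > 0, ∀ᶠ t in atTop, D.JP (cx u) t ≤ ε * t) →
  ∀ ε > 0, ∀ᶠ t in atTop, D.JP (cx (x + u)) t ≤ D.JP (cx x) t + ε * t

/-- (PAR) if `P` is invisible in direction `u` and `Q` in direction `u'` then the mean width is
that of a parallelogram -/
def T_PAR : Prop := ∀ (D : JData) (u u' : ℝ × ℝ),
  (∀ ε > 0, ∀ᶠ t in atTop, D.JP (cx u) t ≤ ε * t) →
  (∀ ε > 0, ∀ᶠ t in atTop, D.JQ (cx u') t ≤ ε * t) →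
  ∀ α β : ℝ, D.m (cx (α • u + β • u')) = |α| * D.m (cx u) + |β| * D.m (cx u')

/-- (VV) a function which is almost affine in `log t` on all windows is sublinear -/
def T_VV : Prop := ∀ (g : ℝ → ℝ) (q : ℝ), 1 < q → MonotoneOn g (Ici 0) → (∀ t, 0 ≤ g t) →
  (∀ ε > 0, ∀ᶠ t in atTop, g (q ^ 2 * t) - 2 * g (q * t) + g t ≤ ε * t) →
  ∀ ε > 0, ∀ᶠ t in atTop, g t ≤ ε * t

/-- (WQ) empty windows near a direction give sublinear growth in this direction -/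
def T_WQ : Prop := ∀ (D : JData) (w₀ q : ℝ), 1 < q →
  (∀ η > 0, ∀ᶠ t in atTop, ∃ w : ℝ, |w - w₀| ≤ η ∧
    D.JQ (cx (1, w)) (q ^ 2 * t) - 2 * D.JQ (cx (1, w)) (q * t) + D.JQ (cx (1, w)) t = 0) →
  ∀ ε > 0, ∀ᶠ t in atTop, D.JQ (cx (1, w₀)) t ≤ ε * t

/-! ## Group D: the energy argument -/

/-- (LC) second mean value inequality -/
def T_LC : Prop := ∀ (α β M A : ℝ) (φ : ℝ → ℂ) (g : ℝ → ℝ), α ≤ β → 0 ≤ M →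
  IntervalIntegrable φ volume α β →
  (∀ x ∈ Icc α β, ∀ y ∈ Icc α β, x ≤ y → ‖∫ u in x..y, φ u‖ ≤ A) →
  (MonotoneOn g (Ioo α β) ∨ AntitoneOn g (Ioo α β)) → (∀ x ∈ Ioo α β, 0 ≤ g x ∧ g x ≤ M) →
  ‖∫ u in α..β, φ u * (g u : ℂ)‖ ≤ M * A

/-- (FAR) no stationary phase away from the contact point -/
def T_FAR : Prop := ∀ (α β δ w : ℝ) (Ψ p : ℝ → ℝ) (l : ℂ), α ≤ β → 0 < δ → δ ≤ 1 →
  ContinuousOn Ψ (Icc α β) → (∀ x ∈ Icc α β, 0 ≤ Ψ x) →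
  (∀ x ∈ Ioo α β, HasDerivWithinAt Ψ (p x) (Ioi x) x) →
  (MonotoneOn p (Ioo α β) ∨ AntitoneOn p (Ioo α β)) →
  ((∀ x ∈ Ioo α β, δ ≤ p x) ∨ (∀ x ∈ Ioo α β, p x ≤ -δ)) → 0 ≤ l.re → l ≠ 0 →
  ‖∫ x in α..β, Complex.exp (-(l * (Ψ x : ℂ))) * (Real.sqrt (1 + (p x + w) ^ 2) : ℂ)‖ ≤
    2 / ‖l‖ * ((2 + 3 * |w|) / δ)

/-- (PIECE) localisation of the integral of one graph -/
def T_PIECE : Prop := ∀ (a b δ w w₀ V τ W : ℝ) (ψ : ℝ → ℝ) (l : ℂ), a < b → 0 < δ → δ ≤ 1 / 4 →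
  |w - w₀| ≤ 1 / 4 → ConvexOn ℝ (Icc a b) ψ → ContinuousOn ψ (Icc a b) →
  (∀ x ∈ Icc a b, 0 ≤ ψ x ∧ ψ x ≤ W) → (∃ x ∈ Icc a b, ψ x = 0) → 0 ≤ V →
  volume {x | x ∈ Ioo a b ∧ |rd ψ x| < δ} ≤ ENNReal.ofReal V → 0 ≤ l.re → l ≠ 0 → τ ≠ 0 →
  ‖(∫ x in a..b, Complex.exp (-(l * (ψ x : ℂ))) * (Real.sqrt (1 + (rd ψ x + w) ^ 2) : ℂ)) -
      ∫ x in {x | x ∈ Ioo a b ∧ |rd ψ x + w - w₀| < 1},
        Complex.exp (-(Complex.I * τ * (ψ x : ℂ))) *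
          (Real.sqrt (1 + (rd ψ x + w) ^ 2) : ℂ)‖ ≤
    4 * (1 / ‖l‖ + 1 / |τ|) * ((2 + 3 * |w|) / δ) +
      ‖l - Complex.I * τ‖ * δ * V ^ 2 * (3 + |w₀|) ∧
  ‖(∫ x in a..b, Complex.exp (-(l * ((W : ℂ) - (ψ x : ℂ)))) *
        (Real.sqrt (1 + (rd ψ x + w) ^ 2) : ℂ)) -
      Complex.exp (-(l * W)) * ∫ x in {x | x ∈ Ioo a b ∧ |rd ψ x + w - w₀| < 1},
        Complex.exp (Complex.I * τ * (ψ x : ℂ)) *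
          (Real.sqrt (1 + (rd ψ x + w) ^ 2) : ℂ)‖ ≤
    4 * (1 / ‖l‖ + 1 / |τ|) * ((2 + 3 * |w|) / δ) +
      ‖l - Complex.I * τ‖ * δ * V ^ 2 * (3 + |w₀|)

/-- (WIN) the two-term approximation in a window -/
def T_WIN : Prop := ∀ w₀ : ℝ, ∃ C₃ > 0, ∀ (S : Strip) (C₀ Λ : ℝ), 0 < C₀ → 1 ≤ Λ →
  ∃ τ₀ : ℝ, 1 ≤ τ₀ ∧ ∀ τ w δ : ℝ, τ₀ ≤ τ → |w - w₀| ≤ 1 / 4 → 0 < δ → δ ≤ 1 / 4 →
  (S.μT (ball w (δ / 2))).toReal ≤ 4 * Λ / (τ * δ) →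
  (S.μB (ball w (δ / 2))).toReal ≤ 4 * Λ / (τ * δ) →
  ∀ l : ℂ, τ ≤ l.im → l.im ≤ (1 + 1 / Λ ^ 2) * τ → |l.re| ≤ C₀ * Real.log (2 + l.im) →
  (0 ≤ l.re → ‖Complex.exp (-(l * S.hT w)) * S.F (l, l * w) -
      (S.aT w₀ τ w + Complex.exp (-(l * ((S.hT w - S.gB w : ℝ) : ℂ))) * S.bB w₀ τ w)‖ ≤
    C₃ / (τ * δ)) ∧
  (l.re ≤ 0 → ‖Complex.exp (-(l * S.gB w)) * S.F (l, l * w) -
      (S.bB w₀ τ w + Complex.exp (l * ((S.hT w - S.gB w : ℝ) : ℂ)) * S.aT w₀ τ w)‖ ≤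
    C₃ / (τ * δ))

/-- (TT) comparison of two sums of two exponentials -/
def T_TT : Prop := ∀ (a b a' b' : ℂ) (W τ e L : ℝ), 0 < W → 2 * π ≤ L * W → 0 < e →
  (∀ x ∈ Icc τ (τ + L), |‖a + Complex.exp (-(Complex.I * x * W)) * b‖ -
    ‖a' + Complex.exp (-(Complex.I * x * W)) * b'‖| ≤ 2 * e) →
  ‖a'‖ + 20 * e ≤ ‖a‖ → ‖b‖ + 18 * e ≤ ‖a‖ ∧ ‖a'‖ + 18 * e ≤ ‖b'‖

/-- (EN) the energy identity -/
def T_EN : Prop := ∀ (I : Set ℝ) (T s n : ℝ → ℝ) (N : ℝ), MeasurableSet I →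
  Bornology.IsBounded I → Measurable T → Measurable s → Measurable n → (∀ x ∈ I, |n x| ≤ N) →
  (∀ᵐ x ∂(volume.restrict I), I ∈ 𝓝 x ∧ HasDerivAt T (- s x) x ∧ ContinuousAt n x) →
  ∀ φ : ℝ → ℝ, ContDiff ℝ ∞ φ → HasCompactSupport φ →
  Tendsto (fun τ : ℝ => τ * ∫ w, φ w *
      ‖∫ x in I, Complex.exp (Complex.I * τ * ((T x + w * x : ℝ) : ℂ)) * (n x : ℂ)‖ ^ 2)
    atTop (𝓝 (2 * π * ∫ x in I, φ (s x) * (n x) ^ 2))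

/-- (ENS) the energy identity for strips -/
def T_ENS : Prop := ∀ (S : Strip) (w₀ : ℝ) (φ : ℝ → ℝ), ContDiff ℝ ∞ φ → HasCompactSupport φ →
  (∀ w, 1 / 2 ≤ |w - w₀| → φ w = 0) →
  (∀ τ : ℝ, Continuous (fun w => ‖S.aT w₀ τ w‖)) ∧
  Tendsto (fun τ : ℝ => τ * ∫ w, φ w * ‖S.aT w₀ τ w‖ ^ 2) atTop
    (𝓝 (2 * π * ∫ v, φ v * (1 + v ^ 2) ∂S.μT))

/-- (COV) the natural scale and the covering estimate -/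
def T_COV : Prop := ∀ (m : Measure ℝ) [IsFiniteMeasure m] (w₀ r Λ : ℝ), 0 < r → 0 < Λ →
  0 < m (closedBall w₀ r) → ∀ᶠ τ in atTop, ∃ δ : ℝ → ℝ, Measurable δ ∧
    (∀ w ∈ closedBall w₀ r, 0 < δ w ∧ δ w ≤ 3 * r ∧
      (m (ball w (δ w / 2))).toReal ≤ 4 * Λ / (τ * δ w)) ∧
    ∫⁻ w in closedBall w₀ r, ENNReal.ofReal (1 / (δ w) ^ 2) ≤
      ENNReal.ofReal (10 * τ / Λ) * m (closedBall w₀ (4 * r))

/-- (TYP) typical points -/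
def T_TYP : Prop := ∀ (m μ : Measure ℝ) [IsFiniteMeasure m], μ ≤ m →
  (∀ᵐ w ∂m, Dens m μ w (μ.rnDeriv m w).toReal) ∧ ∀ᵐ w ∂m, Dbl m w

/-- (LW) at a typical point with different densities the local amplitudes differ robustly -/
def T_LW : Prop := ∀ (S S' : Strip) (m : Measure ℝ) (w₀ k κ c₁ c₂ : ℝ), IsFiniteMeasure m →
  S.μT ≤ m → S'.μT ≤ m → 0 < c₁ → 0 < c₂ → Dens m S.μT w₀ k → Dens m S'.μT w₀ κ → Dbl m w₀ →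
  c₂ ^ 2 * κ < c₁ ^ 2 * k → ∀ C₃ > 0, ∃ Λ : ℝ, 1 ≤ Λ ∧ ∀ η > 0, ∃ τ₀ : ℝ, ∀ τ ≥ τ₀,
  ∃ w δ : ℝ, |w - w₀| ≤ η ∧ 0 < δ ∧ δ ≤ η ∧
    (m (ball w (δ / 2))).toReal ≤ 4 * Λ / (τ * δ) ∧
    c₂ * ‖S'.aT w₀ τ w‖ + C₃ / (τ * δ) ≤ c₁ * ‖S.aT w₀ τ w‖

/-- (NCZ) different amplitudes exclude common zeros in a window -/
def T_NCZ : Prop := ∀ (S S' : Strip) (c₁ c₂ w₀ C₀ : ℝ), 0 < c₁ → 0 < c₂ → 0 < C₀ →
  (∀ w, S.hT w - S.gB w = S'.hT w - S'.gB w) →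
  (∀ z, (c₁ * S.F z) * (c₁ * S.F (-z)) = (c₂ * S'.F z) * (c₂ * S'.F (-z))) →
  (∀ w : ℝ, |w - w₀| ≤ 1 / 4 → ∀ l : ℂ, S.F (l, l * w) = 0 ∨ S'.F (l, l * w) = 0 →
    |l.re| ≤ C₀ * Real.log (2 + |l.im|)) →
  ∃ C₃ > 0, ∀ Λ : ℝ, 1 ≤ Λ → ∃ τ₀ : ℝ, ∀ τ ≥ τ₀, ∀ w δ : ℝ, |w - w₀| ≤ 1 / 4 → 0 < δ →
  δ ≤ 1 / 4 →
  (S.μT (ball w (δ / 2))).toReal ≤ 4 * Λ / (τ * δ) →
  (S.μB (ball w (δ / 2))).toReal ≤ 4 * Λ / (τ * δ) →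
  (S'.μT (ball w (δ / 2))).toReal ≤ 4 * Λ / (τ * δ) →
  (S'.μB (ball w (δ / 2))).toReal ≤ 4 * Λ / (τ * δ) →
  c₂ * ‖S'.aT w₀ τ w‖ + C₃ / (τ * δ) ≤ c₁ * ‖S.aT w₀ τ w‖ →
  ∀ l : ℂ, τ ≤ |l.im| → |l.im| ≤ (1 + 1 / Λ ^ 2) * τ →
    ¬ (S.F (l, l * w) = 0 ∧ S'.F (l, l * w) = 0)

/-- (STEP) windows without common zeros near a typical point -/
def T_STEP : Prop := ∀ (S S' : Strip) (w₀ k κ c₁ c₂ C₀ : ℝ), 0 < c₁ → 0 < c₂ → 0 < C₀ →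
  S.μT + S.μB = S'.μT + S'.μB →
  (∀ w, S.hT w - S.gB w = S'.hT w - S'.gB w) →
  (∀ z, (c₁ * S.F z) * (c₁ * S.F (-z)) = (c₂ * S'.F z) * (c₂ * S'.F (-z))) →
  (∀ w : ℝ, |w - w₀| ≤ 1 / 4 → ∀ l : ℂ, S.F (l, l * w) = 0 ∨ S'.F (l, l * w) = 0 →
    |l.re| ≤ C₀ * Real.log (2 + |l.im|)) →
  Dens (S.μT + S.μB) S.μT w₀ k → Dens (S.μT + S.μB) S'.μT w₀ κ → Dbl (S.μT + S.μB) w₀ →
  c₁ ^ 2 * k ≠ c₂ ^ 2 * κ →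
  ∃ q : ℝ, 1 < q ∧ ∀ η > 0, ∀ᶠ t in atTop, ∃ w : ℝ, |w - w₀| ≤ η ∧
    ∀ l : ℂ, t ≤ ‖l‖ → ‖l‖ ≤ q ^ 2 * t → ¬ (S.F (l, l * w) = 0 ∧ S'.F (l, l * w) = 0)

end Pool.Agent.H66.BP
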