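import Pool.Agent.H66.BP.FinF
import Pool.Agent.H59.BP.ALG
import Pool.Agent.H58.BP.ALI
import Pool.Agent.H54.BP.AP
import Pool.Agent.H15.BP.HS
import Pool.Agent.H39.BP.BAS
import Pool.Agent.H97.BP.COV
import Pool.Agent.H4.BP.DIFF
import Pool.Agent.H36.BP.EN
import Pool.Agent.H56.BP.ENS
import Pool.Agent.H36.BP.EQ
import Pool.Agent.H39.BP.FAR
import Pool.Agent.H97.BP.FRN
import Pool.Agent.H80.BP.GRH
import Pool.Agent.H90.BP.HTK
import Pool.Agent.H17.BP.JC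
import Pool.Agent.H54.BP.JEN
import Pool.Agent.H54.BP.JM
import Pool.Agent.H90.BP.LC
import Pool.Agent.H24.BP.LOW
import Pool.Agent.H97.BP.LW
import Pool.Agent.H4.BP.NCZ
import Pool.Agent.H41.BP.NEG
import Pool.Agent.H15.BP.PAR
import Pool.Agent.H58.BP.PIECE
import Pool.Agent.H24.BP.PLOG
import Pool.Agent.H24.BP.QL
import Pool.Agent.H80.BP.RC
import Pool.Agent.H90.BP.ROT
import Pool.Agent.H36.BP.S2
import Pool.Agent.H80.BP.SMP
import Pool.Agent.H76.BP.STAR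
import Pool.Agent.H4.BP.STEP
import Pool.Agent.H97.BP.STRIP
import Pool.Agent.H41.BP.SUPD
import Pool.Agent.H54.BP.TT
import Pool.Agent.H90.BP.TYP
import Pool.Agent.H54.BP.VV
import Pool.Agent.H39.BP.WIN
import Pool.Agent.H59.BP.WP

/-! # The main theorem, from the last three targets -/

namespace Pool.Agent.H66.BP

theorem main3 (hREP : T_REP) (hL0S : T_L0S) (hLOC : T_LOC) (K H : Set E) (bK : IsBody K)
    (bH : IsBody H) (hlaw : diffLaw K = diffLaw H) :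
    ∃ t : E, H = (fun x => x + t) '' K ∨ H = (fun x => -x + t) '' K := by
  have hSTRIP : T_STRIP := Pool.Agent.H97.BP.ST.STRIP_proof
  have hALI : T_ALI := Pool.Agent.H58.BP.ali
  have hBAS : T_BAS := Pool.Agent.H39.BP.BAS.bas hSTRIP hREP hALI
  have hHS : T_HS := Pool.Agent.H15.BP.hs
  have hHH : T_HH := Pool.Agent.H15.BP.hh_all
  have hBACK : T_BACK := Pool.Agent.H15.BP.back
  have hDIFF : T_DIFF := Pool.Agent.H4.BP.diff hBAS
  have hROT : T_ROT := Pool.Agent.H90.BP.ROT_proof hSTRIP hREP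
  have hNEG : T_NEG := Pool.Agent.H41.BP.negm
  have hSUPD : T_SUPD := Pool.Agent.H41.BP.supd
  have hHTK : T_HTK := Pool.Agent.H90.BP.HTK_proof
  have hSMP : T_SMP := Pool.Agent.H80.BP.smp
  have hQL : T_QL := Pool.Agent.H24.BP.ql
  have hPLOG : T_PLOG := Pool.Agent.H24.BP.plog hSMP
  have hLOW : T_LOW := Pool.Agent.H24.BP.low hPLOG
  have hJEN : T_JEN := Pool.Agent.H54.BP.JEN_proof
  have hRC : T_RC := Pool.Agent.H80.BP.rc
  have hSTAR : T_STAR := Pool.Agent.H76.BP.star hLOC hRC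
  have hJC : T_JC := Pool.Agent.H17.BP.JC_proof
  have hJM : T_JM := Pool.Agent.H54.BP.JM_proof
  have hEQ : T_EQ := Pool.Agent.H36.BP.eq hSMP
  have hS2 : T_S2 := Pool.Agent.H36.BP.s2 hEQ hQL
  have hPAR : T_PAR := Pool.Agent.H15.BP.par hS2
  have hVV : T_VV := Pool.Agent.H54.BP.VV_proof
  have hWQ : T_WQ := Pool.Agent.H15.BP.wq hEQ hVV
  have hLC : T_LC := Pool.Agent.H90.BP.LC_proof
  have hFAR : T_FAR := Pool.Agent.H39.BP.FAR.far hLC
  have hPIECE : T_PIECE := Pool.Agent.H58.BP.piece hFAR hALI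
  have hWIN : T_WIN := Pool.Agent.H39.BP.WIN.win hPIECE
  have hTT : T_TT := Pool.Agent.H54.BP.TT_proof
  have hEN : T_EN := Pool.Agent.H36.BP.en
  have hENS : T_ENS := Pool.Agent.H56.BP.ens hEN hALI
  have hCOV : T_COV := Pool.Agent.H97.BP.COV_proof
  have hTYP : T_TYP := Pool.Agent.H90.BP.TYP_proof
  have hLW : T_LW := Pool.Agent.H97.BP.LWM.LW_proof hENS hCOV
  have hNCZ : T_NCZ := Pool.Agent.H4.BP.ncz hWIN hTT
  have hSTEP : T_STEP := Pool.Agent.H4.BP.step hLW hNCZ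
  exact main_of hSTRIP hREP hDIFF hHTK hSUPD hBACK hSTAR hPAR hTYP hROT hL0S hBAS hHS hHH hJEN
    hLOW hJM hJC hNEG hWQ hSTEP K H bK bH hlaw

end Pool.Agent.H66.BP
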