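import Mathlib

/-! # Differences of two boundary points of a planar convex body (MP_d8fe2e_gt): definitions -/

open MeasureTheory Set Filter Topology Metric
open scoped Real ENNReal NNReal

namespace Pool.Agent.H66.BP

/-- the Euclidean plane -/
abbrev E := EuclideanSpace ℝ (Fin 2)

/-- convex bodies of the plane -/
structure IsBody (K : Set E) : Prop where
  convex : Convex ℝ K
  compact : IsCompact K
  nonempty : (interior K).Nonempty

/-- arc length (one-dimensional Hausdorff measure) on the boundary of `K` -/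
noncomputable def bdm (K : Set E) : Measure E := (μH[1] : Measure E).restrict (frontier K)

/-- the uniform distribution on the boundary of `K` -/
noncomputable def unif (K : Set E) : Measure E := (bdm K Set.univ)⁻¹ • bdm K

/-- the law of `Y₁ - Y₂` for independent `Y₁`, `Y₂`, uniformly distributed on the boundary -/
noncomputable def diffLaw (K : Set E) : Measure E :=
  ((unif K).prod (unif K)).map (fun p => p.1 - p.2)

/-- `F_K(z) = ∫ exp(z.y) dH¹(y)` over the boundary of `K` -/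
noncomputable def FK (K : Set E) (z : ℂ × ℂ) : ℂ :=
  ∫ y, Complex.exp (z.1 * ((y 0 : ℝ) : ℂ) + z.2 * ((y 1 : ℝ) : ℂ)) ∂(bdm K)

/-- the support function -/
noncomputable def hK (K : Set E) (u : ℝ × ℝ) : ℝ :=
  sSup ((fun y : E => u.1 * y 0 + u.2 * y 1) '' K)

/-- a real vector as a complex vector -/
def cx (u : ℝ × ℝ) : ℂ × ℂ := ((u.1 : ℂ), (u.2 : ℂ))

/-- the mean support function of a complex vector -/
noncomputable def hh (K : Set E) (z : ℂ × ℂ) : ℝ :=
  Real.circleAverage (fun s : ℂ => hK K ((s * z.1).re, (s * z.2).re)) 0 1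

/-! ### strips: a body between two graphs -/

/-- a convex body given as the region between the graphs of a convex function `B` and a concave
function `T` over `[a, b]`; the second coordinate is the variable, the first one the value -/
structure Strip where
  a : ℝ
  b : ℝ
  T : ℝ → ℝ
  B : ℝ → ℝ
  hab : a < b
  concT : ConcaveOn ℝ (Icc a b) T
  convB : ConvexOn ℝ (Icc a b) B
  contT : ContinuousOn T (Icc a b)
  contB : ContinuousOn B (Icc a b)
  le : ∀ x ∈ Icc a b, B x ≤ T x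
  lt : ∀ x ∈ Ioo a b, B x < T x

/-- the right derivative -/
noncomputable def rd (f : ℝ → ℝ) (x : ℝ) : ℝ := derivWithin f (Ioi x) x

/-- the density of arc length along a graph -/
noncomputable def al (f : ℝ → ℝ) (x : ℝ) : ℝ := Real.sqrt (1 + (rd f x) ^ 2)

namespace Strip

/-- the body -/
def set (S : Strip) : Set E := {y | y 1 ∈ Icc S.a S.b ∧ S.B (y 1) ≤ y 0 ∧ y 0 ≤ S.T (y 1)}

/-- the boundary integral of `exp(z.y)` in terms of the graphs -/
noncomputable def F (S : Strip) (z : ℂ × ℂ) : ℂ :=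
  (∫ x in S.a..S.b, Complex.exp (z.1 * (S.T x : ℂ) + z.2 * (x : ℂ)) * (al S.T x : ℂ)) +
  (∫ x in S.a..S.b, Complex.exp (z.1 * (S.B x : ℂ) + z.2 * (x : ℂ)) * (al S.B x : ℂ)) +
  (∫ y in S.B S.a..S.T S.a, Complex.exp (z.1 * (y : ℂ) + z.2 * (S.a : ℂ))) +
  (∫ y in S.B S.b..S.T S.b, Complex.exp (z.1 * (y : ℂ) + z.2 * (S.b : ℂ)))

/-- slope of the top: `s = - T'` -/
noncomputable def sT (S : Strip) (x : ℝ) : ℝ := - rd S.T x

/-- slope of the bottom: `s = - B'` -/
noncomputable def sB (S : Strip) (x : ℝ) : ℝ := - rd S.B x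

/-- the distribution of the slopes of the top -/
noncomputable def μT (S : Strip) : Measure ℝ := (volume.restrict (Ioo S.a S.b)).map S.sT

/-- the distribution of the slopes of the bottom -/
noncomputable def μB (S : Strip) : Measure ℝ := (volume.restrict (Ioo S.a S.b)).map S.sB

/-- support function of the body in the direction `(1, w)` -/
noncomputable def hT (S : Strip) (w : ℝ) : ℝ := sSup ((fun x => S.T x + w * x) '' Icc S.a S.b)

/-- minus the support function of the body in the direction `-(1, w)` -/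
noncomputable def gB (S : Strip) (w : ℝ) : ℝ := sInf ((fun x => S.B x + w * x) '' Icc S.a S.b)

/-- the reflected body -/
noncomputable def neg (S : Strip) : Strip where
  a := -S.b
  b := -S.a
  T := fun x => - S.B (-x)
  B := fun x => - S.T (-x)
  hab := neg_lt_neg S.hab
  concT := by
    have h := S.convB
    refine ⟨convex_Icc _ _, fun x hx y hy p q hp hq hpq => ?_⟩
    have hx' : -x ∈ Icc S.a S.b := ⟨by linarith [hx.2], by linarith [hx.1]⟩
    have hy' : -y ∈ Icc S.a S.b := ⟨by linarith [hy.2], by linarith [hy.1]⟩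
    have := h.2 hx' hy' hp hq hpq
    have e : -(p • x + q • y) = p • (-x) + q • (-y) := by simp [smul_eq_mul]; ring
    simp only [smul_eq_mul] at this e ⊢
    rw [e]
    linarith
  convB := by
    have h := S.concT
    refine ⟨convex_Icc _ _, fun x hx y hy p q hp hq hpq => ?_⟩
    have hx' : -x ∈ Icc S.a S.b := ⟨by linarith [hx.2], by linarith [hx.1]⟩
    have hy' : -y ∈ Icc S.a S.b := ⟨by linarith [hy.2], by linarith [hy.1]⟩
    have := h.2 hx' hy' hp hq hpq
    have e : -(p • x + q • y) = p • (-x) + q • (-y) := by simp [smul_eq_mul]; ring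
    simp only [smul_eq_mul] at this e ⊢
    rw [e]
    linarith
  contT := by
    have : MapsTo (fun x : ℝ => -x) (Icc (-S.b) (-S.a)) (Icc S.a S.b) := fun x hx =>
      ⟨by linarith [hx.2], by linarith [hx.1]⟩
    exact (S.contB.comp continuous_neg.continuousOn this).neg
  contB := by
    have : MapsTo (fun x : ℝ => -x) (Icc (-S.b) (-S.a)) (Icc S.a S.b) := fun x hx =>
      ⟨by linarith [hx.2], by linarith [hx.1]⟩
    exact (S.contT.comp continuous_neg.continuousOn this).neg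
  le := fun x hx => neg_le_neg (S.le (-x) ⟨by linarith [hx.2], by linarith [hx.1]⟩)
  lt := fun x hx => neg_lt_neg (S.lt (-x) ⟨by linarith [hx.2], by linarith [hx.1]⟩)

/-- the local amplitude of the top near the slope `w₀` at frequency `τ` -/
noncomputable def aT (S : Strip) (w₀ τ w : ℝ) : ℂ :=
  ∫ x in {x | x ∈ Ioo S.a S.b ∧ |S.sT x - w₀| < 1},
    Complex.exp (-(Complex.I * τ * ((S.hT w - S.T x - w * x : ℝ) : ℂ))) * (al S.T x : ℂ)

/-- the local amplitude of the bottom near the slope `w₀` at frequency `τ` -/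
noncomputable def bB (S : Strip) (w₀ τ w : ℝ) : ℂ :=
  ∫ x in {x | x ∈ Ioo S.a S.b ∧ |S.sB x - w₀| < 1},
    Complex.exp (Complex.I * τ * ((S.B x + w * x - S.gB w : ℝ) : ℂ)) * (al S.B x : ℂ)

end Strip

/-! ### multiplicity functions and Jensen sums -/

/-- order of vanishing of `ξ ↦ F(ξ z)` at `ζ` -/
noncomputable def oF (F : ℂ × ℂ → ℂ) (z : ℂ × ℂ) (ζ : ℂ) : ℕ :=
  analyticOrderNatAt (fun ξ : ℂ => F (ξ • z)) ζ

/-- Jensen sum of a family of divisors -/
noncomputable def J (D : ℂ × ℂ → ℂ → ℕ) (z : ℂ × ℂ) (t : ℝ) : ℝ :=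
  ∑ᶠ ζ : ℂ, (D z ζ : ℝ) * Real.posLog (t / ‖ζ‖)

/-- regular families of divisors: clusters have constant mass, and the product of the points of a
cluster is analytic along complex lines -/
def Reg (D : ℂ × ℂ → ℂ → ℕ) : Prop :=
  ∀ (z₀ : ℂ × ℂ) (ζ₀ : ℂ) (ε₀ : ℝ), 0 < ε₀ → ∃ ε : ℝ, 0 < ε ∧ ε < ε₀ ∧
    (∀ᶠ z in 𝓝 z₀, ∑ᶠ ζ ∈ ball ζ₀ ε, D z ζ = D z₀ ζ₀) ∧
    ∀ d : ℂ × ℂ, ∃ g : ℂ → ℂ, AnalyticAt ℂ g 0 ∧
      ∀ᶠ s in 𝓝 (0 : ℂ), g s = ∏ᶠ ζ ∈ ball ζ₀ ε, ζ ^ D (z₀ + s • d) ζ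

/-- continuous functions on the complex plane with the local sub-mean-value property -/
def SubM (u : ℂ → ℝ) : Prop :=
  Continuous u ∧ ∀ c : ℂ, ∃ r₀ > 0, ∀ r : ℝ, 0 < r → r < r₀ → u c ≤ Real.circleAverage u c r

/-- the properties of the two Jensen sums which are used -/
structure JData where
  JP : ℂ × ℂ → ℝ → ℝ
  JQ : ℂ × ℂ → ℝ → ℝ
  m : ℂ × ℂ → ℝ
  M : ℝ
  C : ℝ
  hM : 0 ≤ M
  hC : 0 ≤ C
  P0 : ∀ z t, 0 ≤ JP z t
  Q0 : ∀ z t, 0 ≤ JQ z t
  Psub : ∀ z d t, 0 < t → SubM (fun s => JP (z + s • d) t)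
  Qsub : ∀ z d t, 0 < t → SubM (fun s => JQ (z + s • d) t)
  Phom : ∀ (c : ℂ) z t, c ≠ 0 → JP (c • z) t = JP z (‖c‖ * t)
  Qhom : ∀ (c : ℂ) z t, c ≠ 0 → JQ (c • z) t = JQ z (‖c‖ * t)
  Pzero : ∀ t, JP 0 t = 0
  Qzero : ∀ t, JQ 0 t = 0
  Pmono : ∀ z, MonotoneOn (JP z) (Ici 0)
  Qmono : ∀ z, MonotoneOn (JQ z) (Ici 0)
  upper : ∀ z t, 0 < t → JP z t + JQ z t ≤ t * m z
  lower : ∀ (x : ℝ × ℝ) t, 0 < t →
    t * m (cx x) - C * Real.log (2 + t * ‖x‖) ≤ JP (cx x) t + JQ (cx x) t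
  madd : ∀ z z', m (z + z') ≤ m z + m z'
  mhom : ∀ (c : ℂ) z, m (c • z) = ‖c‖ * m z
  mbd : ∀ z, m z ≤ M * ‖z‖

/-- `w₀` is a point of density `k` of `μ` with respect to `m` -/
def Dens (m μ : Measure ℝ) (w₀ k : ℝ) : Prop :=
  ∀ ε > 0, ∀ᶠ r in 𝓝[>] (0 : ℝ), ∀ f : ℝ → ℝ, Measurable f → (∀ x, 0 ≤ f x) → (∀ x, f x ≤ 1) →
    (∀ x, x ∉ closedBall w₀ r → f x = 0) →
    |∫ x, f x ∂μ - k * ∫ x, f x ∂m| ≤ ε * (m (closedBall w₀ r)).toReal

/-- `m` is doubling at `w₀` at arbitrarily small scales -/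
def Dbl (m : Measure ℝ) (w₀ : ℝ) : Prop :=
  ∃ᶠ r in 𝓝[>] (0 : ℝ), 0 < (m (closedBall w₀ (r / 2))).toReal ∧
    (m (closedBall w₀ (4 * r))).toReal ≤ 9 * (m (closedBall w₀ (r / 2))).toReal

end Pool.Agent.H66.BP
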