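import Pool.Agent.H66.BP.Targets

/-! # Assembly, part A: growth of `F_K` away from the imaginary axis, widths, zeros -/

open MeasureTheory Set Filter Topology Metric
open scoped Real ENNReal NNReal ComplexConjugate

namespace Pool.Agent.H66.BP

lemma cx_neg (v : ℝ × ℝ) : cx (-v) = - cx v := by
  simp [cx]

lemma cx_add (u v : ℝ × ℝ) : cx (u + v) = cx u + cx v := by
  simp [cx]

lemma cx_smul (c : ℝ) (v : ℝ × ℝ) : cx (c • v) = (c : ℂ) • cx v := by
  simp [cx]

lemma norm_cx (v : ℝ × ℝ) : ‖cx v‖ = ‖v‖ := by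
  simp [cx, Prod.norm_def]

/-- lower bound for `F_K` in the right half plane -/
theorem L0body (hROT : T_ROT) (hL0S : T_L0S) (hBAS : T_BAS) (K : Set E) (bK : IsBody K) :
    ∃ C > 0, ∀ v : ℝ × ℝ, v.1 ^ 2 + v.2 ^ 2 = 1 → ∀ l : ℂ, C * Real.log (2 + ‖l‖) ≤ l.re →
      Real.exp (l.re * hK K v) ≤ ‖l‖ * ‖FK K (l • cx v)‖ := by
  obtain ⟨ρ, hρ, h⟩ := hROT K bK
  have hp := (hBAS K bK).2.1
  obtain ⟨C, hC, hC'⟩ := hL0S ρ (FK K 0).re hρ hp
  refine ⟨C, hC, fun v hv l hl => ?_⟩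
  obtain ⟨S, h1, h2, h3, h4, h5⟩ := h v hv
  have h0 : S.F 0 = FK K 0 := by
    have := h1 0
    rw [zero_smul] at this
    rw [this]; rfl
  have := hC' S h5 h4 (by rw [h0]) l hl
  rw [← h1 l, h2] at this
  have h6 : 1 ≤ ‖l * FK K (l • cx v) * Complex.exp (-(l * (hK K v : ℂ)))‖ :=
    this.trans (Complex.re_le_norm _)
  rw [norm_mul, norm_mul, Complex.norm_exp] at h6
  have h7 : (-(l * (hK K v : ℂ))).re = -(l.re * hK K v) := by
    simp
  rw [h7, Real.exp_neg] at h6
  have h8 := Real.exp_pos (l.re * hK K v)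
  rw [← div_eq_mul_inv, le_div_iff₀ h8, one_mul] at h6
  exact h6

/-- lower bound for `F_K` on both sides -/
theorem L0both (hROT : T_ROT) (hL0S : T_L0S) (hBAS : T_BAS) (hHS : T_HS) (K : Set E)
    (bK : IsBody K) :
    ∃ C > 0, ∀ v : ℝ × ℝ, v.1 ^ 2 + v.2 ^ 2 = 1 → ∀ l : ℂ, C * Real.log (2 + ‖l‖) ≤ |l.re| →
      Real.exp (max (l.re * hK K v) (-l.re * hK K (-v))) ≤ (1 + ‖l‖) * ‖FK K (l • cx v)‖ := by
  obtain ⟨C, hC, h⟩ := L0body hROT hL0S hBAS K bK
  refine ⟨C, hC, fun v hv l hl => ?_⟩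
  have hv0 : v ≠ 0 := by
    rintro rfl
    norm_num at hv
  have hw := (hHS K bK).2.2.2.2 v hv0
  have hlog : 0 ≤ Real.log (2 + ‖l‖) := Real.log_nonneg (by linarith [norm_nonneg l])
  rcases le_total 0 l.re with h0 | h0
  · rw [abs_of_nonneg h0] at hl
    have h1 : max (l.re * hK K v) (-l.re * hK K (-v)) = l.re * hK K v := by
      apply max_eq_left
      nlinarith
    rw [h1]
    refine (h v hv l hl).trans ?_
    nlinarith [norm_nonneg (FK K (l • cx v))]
  · rw [abs_of_nonpos h0] at hl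
    have h1 : max (l.re * hK K v) (-l.re * hK K (-v)) = -l.re * hK K (-v) := by
      apply max_eq_right
      nlinarith
    rw [h1]
    have h2 := h (-v) (by simpa using hv) (-l) (by simpa using hl)
    have h3 : (-l) • cx (-v) = l • cx v := by
      rw [cx_neg, smul_neg, neg_smul, neg_neg]
    rw [h3, norm_neg, Complex.neg_re] at h2
    refine h2.trans ?_
    nlinarith [norm_nonneg (FK K (l • cx v))]

/-- the Euclidean norm of a real vector -/
noncomputable def en (x : ℝ × ℝ) : ℝ := Real.sqrt (x.1 ^ 2 + x.2 ^ 2)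

lemma en_pos {x : ℝ × ℝ} (hx : x ≠ 0) : 0 < en x := by
  apply Real.sqrt_pos.2
  by_contra h
  push Not at h
  apply hx
  have h1 : x.1 = 0 := by nlinarith [sq_nonneg x.1, sq_nonneg x.2]
  have h2 : x.2 = 0 := by nlinarith [sq_nonneg x.1, sq_nonneg x.2]
  exact Prod.ext h1 h2

lemma en_le (x : ℝ × ℝ) : en x ≤ 2 * ‖x‖ := by
  have h1 : |x.1| ≤ ‖x‖ := norm_fst_le x
  have h2 : |x.2| ≤ ‖x‖ := norm_snd_le x
  have h0 := norm_nonneg x
  apply Real.sqrt_le_iff.2
  refine ⟨by positivity, ?_⟩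
  have h3 : x.1 ^ 2 ≤ ‖x‖ ^ 2 := by
    rw [← sq_abs]; exact pow_le_pow_left₀ (abs_nonneg _) h1 2
  have h4 : x.2 ^ 2 ≤ ‖x‖ ^ 2 := by
    rw [← sq_abs]; exact pow_le_pow_left₀ (abs_nonneg _) h2 2
  nlinarith

lemma unit_of {x : ℝ × ℝ} (hx : x ≠ 0) :
    ((en x)⁻¹ • x).1 ^ 2 + ((en x)⁻¹ • x).2 ^ 2 = 1 := by
  have h := en_pos hx
  have h2 : en x ^ 2 = x.1 ^ 2 + x.2 ^ 2 := Real.sq_sqrt (by positivity)
  simp only [Prod.smul_fst, Prod.smul_snd, smul_eq_mul]
  field_simp
  linarith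

lemma en_smul_unit {x : ℝ × ℝ} (hx : x ≠ 0) : en x • ((en x)⁻¹ • x) = x := by
  rw [smul_smul, mul_inv_cancel₀ (en_pos hx).ne', one_smul]

/-- growth comparison: equality of the widths -/
theorem width_le (hROT : T_ROT) (hL0S : T_L0S) (hBAS : T_BAS) (hHS : T_HS) (K H : Set E)
    (bK : IsBody K) (bH : IsBody H)
    (hF : ∀ z, FK K z * FK K (-z) * (FK H 0) ^ 2 = FK H z * FK H (-z) * (FK K 0) ^ 2)
    (u : ℝ × ℝ) : hK K u + hK K (-u) ≤ hK H u + hK H (-u) := by
  -- reduce to unit vectors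
  suffices hunit : ∀ v : ℝ × ℝ, v.1 ^ 2 + v.2 ^ 2 = 1 →
      hK K v + hK K (-v) ≤ hK H v + hK H (-v) by
    by_cases hu : u = 0
    · subst hu
      have h1 := (hHS K bK).2.1 0 0 le_rfl
      have h2 := (hHS H bH).2.1 0 0 le_rfl
      simp at h1 h2
      simp [h1, h2]
    · have h1 := hunit _ (unit_of hu)
      have h2 := en_pos hu
      have e1 : ∀ L : Set E, IsBody L → hK L ((en u)⁻¹ • u) = (en u)⁻¹ * hK L u := fun L bL =>
        (hHS L bL).2.1 _ _ (by positivity)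
      have e2 : ∀ L : Set E, IsBody L → hK L (-((en u)⁻¹ • u)) = (en u)⁻¹ * hK L (-u) :=
        fun L bL => by
          rw [← smul_neg]
          exact (hHS L bL).2.1 _ _ (by positivity)
      rw [e1 K bK, e2 K bK, e1 H bH, e2 H bH, ← mul_add, ← mul_add] at h1
      exact le_of_mul_le_mul_left h1 (by positivity)
  intro v hv
  obtain ⟨C, hC, h⟩ := L0both hROT hL0S hBAS hHS K bK
  obtain ⟨-, hpK, hpK', -, hbK, -⟩ := hBAS K bK
  obtain ⟨-, hpH, hpH', -, hbH, -⟩ := hBAS H bH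
  set p := (FK K 0).re with hp
  set q := (FK H 0).re with hq
  have hK0 : FK K 0 = (p : ℂ) := Complex.ext rfl (by simp [hpK'])
  have hH0 : FK H 0 = (q : ℂ) := Complex.ext rfl (by simp [hpH'])
  by_contra hlt
  push Not at hlt
  set δ := hK K v + hK K (-v) - (hK H v + hK H (-v)) with hδ
  have hδ0 : 0 < δ := by linarith
  -- the inequality for large real t
  have key : ∀ᶠ t : ℝ in atTop, Real.exp (t * δ) ≤ (1 + t) ^ 2 * p ^ 2 := by
    have h1 : ∀ᶠ t : ℝ in atTop, C * Real.log (2 + t) ≤ t := by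
      have := Real.isLittleO_log_id_atTop.comp_tendsto
        (tendsto_atTop_add_const_left atTop (2 : ℝ) tendsto_id)
      have h2 := this.def (c := 1 / (2 * C)) (by positivity)
      filter_upwards [h2, eventually_ge_atTop (2 : ℝ)] with t ht ht2
      simp only [Function.comp, id, Real.norm_eq_abs] at ht
      have h3 : Real.log (2 + t) ≤ 1 / (2 * C) * (2 + t) := by
        refine (le_abs_self _).trans (ht.trans ?_)
        rw [abs_of_nonneg (by linarith)]
      calc C * Real.log (2 + t) ≤ C * (1 / (2 * C) * (2 + t)) := by gcongr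
        _ = (2 + t) / 2 := by field_simp
        _ ≤ t := by linarith
    filter_upwards [h1, eventually_ge_atTop (1 : ℝ)] with t ht ht1
    have ht0 : (0 : ℝ) ≤ t := by linarith
    have a1 := h v hv (t : ℂ) (by
      rw [Complex.norm_real, Complex.ofReal_re, Real.norm_eq_abs, abs_of_nonneg ht0]
      exact ht)
    have a2 := h v hv (-(t : ℂ)) (by
      rw [norm_neg, Complex.norm_real, Complex.neg_re, Complex.ofReal_re, Real.norm_eq_abs, abs_neg,
        abs_of_nonneg ht0]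
      exact ht)
    rw [Complex.norm_real, Complex.ofReal_re, Real.norm_eq_abs, abs_of_nonneg ht0] at a1
    rw [norm_neg, Complex.norm_real, Complex.neg_re, Complex.ofReal_re, Real.norm_eq_abs,
      abs_of_nonneg ht0] at a2
    have b1 : Real.exp (t * hK K v) ≤ (1 + t) * ‖FK K ((t : ℂ) • cx v)‖ :=
      (Real.exp_le_exp.2 (le_max_left _ _)).trans a1
    have b2 : Real.exp (t * hK K (-v)) ≤ (1 + t) * ‖FK K (-((t : ℂ) • cx v))‖ := by
      have e : (-(t : ℂ)) • cx v = -((t : ℂ) • cx v) := neg_smul _ _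
      rw [e] at a2
      refine (Real.exp_le_exp.2 ?_).trans a2
      simp
    have c1 := hbH ((t : ℂ) • cx v)
    have c2 := hbH (-((t : ℂ) • cx v))
    have d1 : ((((t : ℂ) • cx v).1).re, (((t : ℂ) • cx v).2).re) = t • v :=
      Prod.ext (by simp [cx]) (by simp [cx])
    have d2 : (((-((t : ℂ) • cx v)).1).re, ((-((t : ℂ) • cx v)).2).re) = t • (-v) :=
      Prod.ext (by simp [cx]) (by simp [cx])
    rw [d1, (hHS H bH).2.1 t v ht0] at c1
    rw [d2, (hHS H bH).2.1 t (-v) ht0] at c2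
    have hid := congrArg norm (hF ((t : ℂ) • cx v))
    rw [hK0, hH0] at hid
    simp only [norm_mul, norm_pow, Complex.norm_real, Real.norm_eq_abs] at hid
    rw [abs_of_pos hpK, abs_of_pos hpH] at hid
    set A := ‖FK K ((t : ℂ) • cx v)‖
    set A' := ‖FK K (-((t : ℂ) • cx v))‖
    set B := ‖FK H ((t : ℂ) • cx v)‖
    set B' := ‖FK H (-((t : ℂ) • cx v))‖
    have e1 : Real.exp (t * (hK K v + hK K (-v))) ≤ (1 + t) ^ 2 * (A * A') := by
      rw [mul_add, Real.exp_add]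
      calc Real.exp (t * hK K v) * Real.exp (t * hK K (-v)) ≤ ((1 + t) * A) * ((1 + t) * A') :=
            mul_le_mul b1 b2 (Real.exp_pos _).le ((Real.exp_pos _).le.trans b1)
        _ = _ := by ring
    have e2 : B * B' ≤ q ^ 2 * Real.exp (t * (hK H v + hK H (-v))) := by
      rw [mul_add, Real.exp_add]
      calc B * B' ≤ (q * Real.exp (t * hK H v)) * (q * Real.exp (t * hK H (-v))) :=
            mul_le_mul c1 c2 (norm_nonneg _) ((norm_nonneg _).trans c1)
        _ = _ := by ring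
    have e3 : A * A' * q ^ 2 ≤ q ^ 2 * Real.exp (t * (hK H v + hK H (-v))) * p ^ 2 := by
      rw [hid]; gcongr
    have e4 : A * A' ≤ Real.exp (t * (hK H v + hK H (-v))) * p ^ 2 := by
      have : q ^ 2 * (A * A') ≤ q ^ 2 * (Real.exp (t * (hK H v + hK H (-v))) * p ^ 2) := by
        linarith
      exact le_of_mul_le_mul_left this (by positivity)
    have e5 : t * (hK K v + hK K (-v)) = t * δ + t * (hK H v + hK H (-v)) := by
      rw [hδ]; ring
    rw [e5, Real.exp_add] at e1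
    have e6 : Real.exp (t * δ) * Real.exp (t * (hK H v + hK H (-v))) ≤
        (1 + t) ^ 2 * p ^ 2 * Real.exp (t * (hK H v + hK H (-v))) := by
      calc _ ≤ (1 + t) ^ 2 * (A * A') := e1
        _ ≤ (1 + t) ^ 2 * (Real.exp (t * (hK H v + hK H (-v))) * p ^ 2) := by gcongr
        _ = _ := by ring
    exact le_of_mul_le_mul_right e6 (Real.exp_pos _)
  -- contradiction with exponential growth
  have h2 : Tendsto (fun t : ℝ => (1 + t) ^ 2 * p ^ 2 * Real.exp (-(δ * t))) atTop (𝓝 0) := by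
    have t0 := Real.tendsto_pow_mul_exp_neg_atTop_nhds_zero 0
    have g : ∀ n : ℕ, Tendsto (fun t : ℝ => t ^ n * Real.exp (-(δ * t))) atTop (𝓝 0) := by
      intro n
      have h3 := (Real.tendsto_pow_mul_exp_neg_atTop_nhds_zero n).comp
        (tendsto_id.const_mul_atTop hδ0)
      have h4 := h3.const_mul ((δ⁻¹) ^ n)
      rw [mul_zero] at h4
      refine h4.congr fun t => ?_
      simp only [Function.comp, id]
      rw [mul_pow, ← mul_assoc, ← mul_assoc, ← mul_pow, inv_mul_cancel₀ hδ0.ne', one_pow, one_mul]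
    have := (((g 0).add ((g 1).const_mul 2)).add (g 2)).const_mul (p ^ 2)
    simp only [mul_zero, add_zero] at this
    refine this.congr fun t => ?_
    ring
  have h3 : ∀ᶠ t : ℝ in atTop, (1 + t) ^ 2 * p ^ 2 * Real.exp (-(δ * t)) < 1 :=
    h2.eventually (gt_mem_nhds one_pos)
  obtain ⟨t, ht1, ht2⟩ := (key.and h3).exists
  have h4 : Real.exp (t * δ) * Real.exp (-(δ * t)) = 1 := by
    rw [← Real.exp_add]
    have : t * δ + -(δ * t) = 0 := by ring
    rw [this, Real.exp_zero]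
  have h5 : Real.exp (t * δ) * Real.exp (-(δ * t)) ≤ (1 + t) ^ 2 * p ^ 2 * Real.exp (-(δ * t)) :=
    mul_le_mul_of_nonneg_right ht1 (Real.exp_pos _).le
  linarith

theorem width_eq (hROT : T_ROT) (hL0S : T_L0S) (hBAS : T_BAS) (hHS : T_HS) (K H : Set E)
    (bK : IsBody K) (bH : IsBody H)
    (hF : ∀ z, FK K z * FK K (-z) * (FK H 0) ^ 2 = FK H z * FK H (-z) * (FK K 0) ^ 2)
    (u : ℝ × ℝ) : hK K u + hK K (-u) = hK H u + hK H (-u) :=
  le_antisymm (width_le hROT hL0S hBAS hHS K H bK bH hF u)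
    (width_le hROT hL0S hBAS hHS H K bH bK (fun z => (hF z).symm) u)

end Pool.Agent.H66.BP
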