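import Pool.Agent.H66.BP.FinA

/-! # Assembly, part B: zeros near the imaginary axis, equality of the slope measures -/

open MeasureTheory Set Filter Topology Metric
open scoped Real ENNReal NNReal ComplexConjugate

namespace Pool.Agent.H66.BP

/-- an inequality for `x ≤ C log(2 + n (x + y))` -/
lemma log_absorb (C n : ℝ) (hC : 0 < C) (hn : 1 ≤ n) :
    ∃ C₀ > 0, ∀ x y : ℝ, 0 ≤ x → 0 ≤ y → x ≤ C * Real.log (2 + n * (x + y)) →
      x ≤ C₀ * Real.log (2 + y) := by
  -- log(2 + n(x+y)) ≤ log(2+y) + log(2 n) + log(1+x)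
  set L := Real.log (1 + 4 * C) with hL
  have hl2 : 0 < Real.log 2 := Real.log_pos one_lt_two
  refine ⟨2 * C + 2 * C * (Real.log (2 * n) + L) / Real.log 2, ?_, ?_⟩
  · have h1 : 0 ≤ Real.log (2 * n) := Real.log_nonneg (by linarith)
    have h2 : 0 ≤ L := Real.log_nonneg (by linarith)
    positivity
  intro x y hx hy h
  have hn0 : 0 < n := by linarith
  have h1 : Real.log (2 + n * (x + y)) ≤ Real.log (2 + y) + Real.log (2 * n) +
      Real.log (1 + x) := by
    rw [← Real.log_mul (by positivity) (by positivity), ← Real.log_mul (by positivity)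
      (by positivity)]
    apply Real.log_le_log (by positivity)
    nlinarith [mul_nonneg hx hy, mul_nonneg hn0.le hx, mul_nonneg hn0.le hy,
      mul_nonneg (mul_nonneg hn0.le hx) hy]
  -- log(1+x) ≤ x/(2C) + log(1+4C)
  have h2 : Real.log (1 + x) ≤ x / (2 * C) + L := by
    have h3 : 1 + x ≤ (1 + 4 * C) * (1 + x / (4 * C) ) := by
      have : (1 + 4 * C) * (1 + x / (4 * C)) = 1 + 4 * C + x / (4 * C) + x := by
        field_simp
        ring
      rw [this]
      have := div_nonneg hx (by positivity : (0 : ℝ) ≤ 4 * C)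
      linarith
    have h4 : 1 + x / (4 * C) ≤ Real.exp (x / (4 * C)) := by
      have := Real.add_one_le_exp (x / (4 * C))
      linarith
    calc Real.log (1 + x) ≤ Real.log ((1 + 4 * C) * Real.exp (x / (4 * C))) := by
          apply Real.log_le_log (by positivity)
          refine h3.trans ?_
          gcongr
      _ = L + x / (4 * C) := by
          rw [Real.log_mul (by positivity) (Real.exp_pos _).ne', Real.log_exp]
      _ ≤ x / (2 * C) + L := by
          have : x / (4 * C) ≤ x / (2 * C) := by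
            apply div_le_div_of_nonneg_left hx (by positivity)
            linarith
          linarith
  have h5 : x ≤ C * (Real.log (2 + y) + Real.log (2 * n) + (x / (2 * C) + L)) := by
    refine h.trans ?_
    gcongr
    linarith
  have h6 : C * (x / (2 * C)) = x / 2 := by field_simp
  have h7 : x ≤ 2 * C * Real.log (2 + y) + 2 * C * (Real.log (2 * n) + L) := by
    nlinarith
  have h8 : Real.log 2 ≤ Real.log (2 + y) := Real.log_le_log (by norm_num) (by linarith)
  have h9 : 0 ≤ 2 * C * (Real.log (2 * n) + L) := by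
    have h1 : 0 ≤ Real.log (2 * n) := Real.log_nonneg (by linarith)
    have h2 : 0 ≤ L := Real.log_nonneg (by linarith)
    positivity
  have h10 : 2 * C * (Real.log (2 * n) + L) ≤
      2 * C * (Real.log (2 * n) + L) / Real.log 2 * Real.log (2 + y) := by
    rw [div_mul_eq_mul_div, le_div_iff₀ hl2]
    gcongr
  calc x ≤ _ := h7
    _ ≤ 2 * C * Real.log (2 + y) +
        2 * C * (Real.log (2 * n) + L) / Real.log 2 * Real.log (2 + y) := by linarith
    _ = _ := by ring

/-- the zeros on complex multiples of `(1, w)` are close to the imaginary axis -/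
theorem zer (hROT : T_ROT) (hL0S : T_L0S) (hBAS : T_BAS) (hHS : T_HS) (K : Set E)
    (bK : IsBody K) (w₀ : ℝ) :
    ∃ C₀ > 0, ∀ w : ℝ, |w - w₀| ≤ 1 / 4 → ∀ l : ℂ, FK K (l, l * w) = 0 →
      |l.re| ≤ C₀ * Real.log (2 + |l.im|) := by
  obtain ⟨C, hC, h⟩ := L0both hROT hL0S hBAS hHS K bK
  obtain ⟨C₀, hC₀, h₀⟩ := log_absorb C (2 * (2 + |w₀|)) hC (by linarith [abs_nonneg w₀])
  refine ⟨C₀, hC₀, fun w hw l hl => ?_⟩
  apply h₀ _ _ (abs_nonneg _) (abs_nonneg _)
  set x : ℝ × ℝ := (1, w) with hx
  have hx0 : x ≠ 0 := by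
    intro h
    have := congrArg Prod.fst h
    simp [hx] at this
  have he := en_pos hx0
  have he1 : 1 ≤ en x := by
    apply Real.one_le_sqrt.2
    simp only [hx]
    nlinarith [sq_nonneg w]
  have he2 : en x ≤ 2 * (2 + |w₀|) := by
    refine (en_le x).trans ?_
    have : ‖x‖ ≤ 2 + |w₀| := by
      rw [hx, Prod.norm_def]
      simp only [norm_one]
      apply max_le (by linarith [abs_nonneg w₀])
      have h1 : |w| ≤ |w - w₀| + |w₀| := by
        have := abs_add_le (w - w₀) w₀
        simpa using this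
      rw [Real.norm_eq_abs]
      linarith
    linarith
  have hv := unit_of hx0
  by_contra hcon
  push Not at hcon
  -- the point l x = (l |x|) v
  have e1 : (l * (en x : ℂ)) • cx ((en x)⁻¹ • x) = (l, l * w) := by
    rw [mul_smul, ← cx_smul, en_smul_unit hx0]
    simp [cx, hx]
  have h1 : C * Real.log (2 + ‖l * (en x : ℂ)‖) ≤ |(l * (en x : ℂ)).re| := by
    have a1 : |(l * (en x : ℂ)).re| = |l.re| * en x := by
      simp [abs_mul, abs_of_pos he]
    have a2 : ‖l * (en x : ℂ)‖ ≤ 2 * (2 + |w₀|) * (|l.re| + |l.im|) := by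
      rw [norm_mul, Complex.norm_real, Real.norm_eq_abs, abs_of_pos he, mul_comm]
      apply mul_le_mul he2 (Complex.norm_le_abs_re_add_abs_im l) (norm_nonneg _)
      linarith [abs_nonneg w₀]
    rw [a1]
    calc C * Real.log (2 + ‖l * (en x : ℂ)‖)
        ≤ C * Real.log (2 + 2 * (2 + |w₀|) * (|l.re| + |l.im|)) := by
          gcongr
      _ ≤ |l.re| := hcon.le
      _ ≤ |l.re| * en x := by
          nlinarith [abs_nonneg l.re]
  have h2 := h _ hv _ h1
  rw [e1, hl, norm_zero, mul_zero] at h2
  exact absurd h2 (not_le.2 (Real.exp_pos _))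

/-- finite measures -/
instance finμT (S : Strip) : IsFiniteMeasure S.μT := by
  unfold Strip.μT
  infer_instance

instance finμB (S : Strip) : IsFiniteMeasure S.μB := by
  unfold Strip.μB
  infer_instance

/-- the right derivative of the width -/
theorem width_deriv (hNEG : T_NEG) (hSUPD : T_SUPD) (S : Strip) (w : ℝ) :
    HasDerivWithinAt (fun w => S.hT w - S.gB w)
      (S.a - S.b + ((S.μT + S.μB) (Iic w)).toReal) (Ioi w) w := by
  obtain ⟨-, -, h1, -, h2, -⟩ := hNEG S
  have a1 := hSUPD S w
  have a2 := hSUPD S.neg w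
  rw [h1] at a2
  have a3 := a1.add a2
  have e : (S.hT + S.neg.hT) = fun w => S.hT w - S.gB w := by
    funext w
    simp [h2 w, sub_eq_add_neg]
  rw [e] at a3
  have e2 : S.a - S.b + ((S.μT + S.μB) (Iic w)).toReal =
      S.a + (S.μT (Iic w)).toReal + (S.neg.a + (S.μB (Iic w)).toReal) := by
    rw [Measure.add_apply, ENNReal.toReal_add (measure_ne_top _ _) (measure_ne_top _ _)]
    simp only [Strip.neg]
    ring
  rw [e2]
  exact a3

/-- a finite measure has small values on `Iic w` for `w → -∞` -/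
lemma tendsto_Iic_toReal (m : Measure ℝ) [IsFiniteMeasure m] :
    Tendsto (fun w => (m (Iic w)).toReal) atBot (𝓝 0) := by
  have h := tendsto_measure_iInter_atBot (μ := m) (s := fun w : ℝ => Iic w)
    (fun i => measurableSet_Iic.nullMeasurableSet) (fun i j hij => Iic_subset_Iic.2 hij)
    ⟨0, measure_ne_top _ _⟩
  have e : (⋂ n : ℝ, Iic n) = ∅ := by
    ext x
    simp only [mem_iInter, mem_Iic, mem_empty_iff_false, iff_false, not_forall, not_le]
    exact ⟨x - 1, by linarith⟩
  rw [e, measure_empty] at h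
  have := (ENNReal.tendsto_toReal (by simp : (0 : ℝ≥0∞) ≠ ⊤)).comp h
  rw [ENNReal.toReal_zero] at this
  exact this

/-- equal widths give equal total slope measures -/
theorem measures_eq (hNEG : T_NEG) (hSUPD : T_SUPD) (S S' : Strip)
    (h : ∀ w, S.hT w - S.gB w = S'.hT w - S'.gB w) :
    S.μT + S.μB = S'.μT + S'.μB := by
  have h1 : ∀ w, S.a - S.b + ((S.μT + S.μB) (Iic w)).toReal =
      S'.a - S'.b + ((S'.μT + S'.μB) (Iic w)).toReal := by
    intro w
    have a1 := width_deriv hNEG hSUPD S w
    have a2 := width_deriv hNEG hSUPD S' w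
    have e : (fun w => S'.hT w - S'.gB w) = fun w => S.hT w - S.gB w := by
      funext w; exact (h w).symm
    rw [e] at a2
    exact (uniqueDiffWithinAt_Ioi w).eq_deriv _ a1 a2
  have t1 := (tendsto_Iic_toReal (S.μT + S.μB)).const_add (S.a - S.b)
  have t2 := (tendsto_Iic_toReal (S'.μT + S'.μB)).const_add (S'.a - S'.b)
  have e : (fun w => S.a - S.b + ((S.μT + S.μB) (Iic w)).toReal) =
      fun w => S'.a - S'.b + ((S'.μT + S'.μB) (Iic w)).toReal := funext h1
  rw [e] at t1
  have h2 := tendsto_nhds_unique t1 t2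
  simp only [add_zero] at h2
  apply Measure.ext_of_Iic
  intro w
  have h3 := h1 w
  rw [h2] at h3
  have h4 := add_left_cancel h3
  exact (ENNReal.toReal_eq_toReal_iff' (measure_ne_top _ _) (measure_ne_top _ _)).1 h4

end Pool.Agent.H66.BP
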