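import Pool.Agent.H66.BP.FinB

/-! # Assembly, part C: the Jensen data of a pair of bodies -/

open MeasureTheory Set Filter Topology Metric
open scoped Real ENNReal NNReal ComplexConjugate

namespace Pool.Agent.H66.BP

lemma oF_const_mul (F : ℂ × ℂ → ℂ) (hF : Differentiable ℂ F) (c : ℂ) (hc : c ≠ 0) :
    oF (fun z => c * F z) = oF F := by
  funext z ζ
  unfold oF
  have hf : AnalyticAt ℂ (fun ξ : ℂ => F (ξ • z)) ζ := by
    have : Differentiable ℂ (fun ξ : ℂ => F (ξ • z)) := by fun_prop
    exact this.analyticAt ζ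
  have e : (fun ξ : ℂ => c * F (ξ • z)) = (fun _ : ℂ => c) * fun ξ : ℂ => F (ξ • z) := rfl
  rw [analyticOrderNatAt, analyticOrderNatAt, e, analyticOrderAt_mul analyticAt_const hf]
  rw [analyticAt_const.analyticOrderAt_eq_zero.2 hc, zero_add]

lemma circleAverage_scale (g : ℂ → ℝ) (a t : ℝ) :
    Real.circleAverage (fun s => g (s * (a : ℂ))) 0 t = Real.circleAverage g 0 (t * a) := by
  unfold Real.circleAverage
  congr 1
  apply intervalIntegral.integral_congr
  intro θ _
  simp only [circleMap, zero_add]
  congr 1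
  push_cast
  ring

lemma re_pair (l : ℂ) (v : ℝ × ℝ) :
    (((l • cx v).1).re, ((l • cx v).2).re) = l.re • v :=
  Prod.ext (by simp [cx]) (by simp [cx])

/-- upper bound for the Jensen sum -/
theorem J_upper (hBAS : T_BAS) (hHS : T_HS) (hJEN : T_JEN) (K : Set E) (bK : IsBody K)
    (z : ℂ × ℂ) (t : ℝ) (ht : 0 < t) : J (oF (FK K)) z t ≤ t * hh K z := by
  obtain ⟨hd, hp, hp', -, hb, -⟩ := hBAS K bK
  obtain ⟨hadd, hhom, ⟨M, hM0, hM⟩, hcont, -⟩ := hHS K bK
  set p := (FK K 0).re with hpdef
  have hK0 : FK K 0 = (p : ℂ) := Complex.ext rfl (by simp [hp'])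
  -- a large constant
  set A : ℝ := Real.exp (M * (t * ‖z‖) + |Real.log p|) with hA
  have hA0 : 0 < A := Real.exp_pos _
  have e1 := oF_const_mul (FK K) hd (A : ℂ) (by exact_mod_cast hA0.ne')
  rw [← e1, hJEN (fun z => (A : ℂ) * FK K z) (by fun_prop) (by
    simp only [hK0]
    exact_mod_cast (mul_pos hA0 hp).ne') z t ht]
  have h0 : ‖(A : ℂ) * FK K 0‖ = A * p := by
    rw [hK0, norm_mul, Complex.norm_real, Complex.norm_real, Real.norm_eq_abs, Real.norm_eq_abs,
      abs_of_pos hA0, abs_of_pos hp]
  rw [h0]
  -- the right-hand side as a circle average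
  have hcr : Continuous (fun s : ℂ => hK K ((s * z.1).re, (s * z.2).re)) := by
    fun_prop
  have h1 : Real.circleAverage (fun s : ℂ => Real.log (A * p) +
      hK K ((s * z.1).re, (s * z.2).re)) 0 t = Real.log (A * p) + t * hh K z := by
    have e2 : Real.circleAverage (fun s : ℂ => Real.log (A * p) +
      hK K ((s * z.1).re, (s * z.2).re)) 0 t = Real.circleAverage (fun _ : ℂ => Real.log (A * p)) 0 t
        + Real.circleAverage (fun s : ℂ => hK K ((s * z.1).re, (s * z.2).re)) 0 t :=
      Real.circleAverage_add (circleIntegrable_const _ _ _)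
        (hcr.continuousOn.circleIntegrable ht.le)
    rw [e2, Real.circleAverage_const]
    congr 1
    have e3 : Real.circleAverage (fun s : ℂ => hK K ((s * z.1).re, (s * z.2).re)) 0 t =
        Real.circleAverage (fun s : ℂ => t * hK K ((s * z.1).re, (s * z.2).re)) 0 1 := by
      have := circleAverage_scale (fun s : ℂ => hK K ((s * z.1).re, (s * z.2).re)) t 1
      rw [one_mul] at this
      rw [← this]
      congr 1
      funext s
      have e4 : ((s * (t : ℂ) * z.1).re, (s * (t : ℂ) * z.2).re) =
          t • ((s * z.1).re, (s * z.2).re) := by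
        have a1 : s * (t : ℂ) * z.1 = (t : ℂ) * (s * z.1) := by ring
        have a2 : s * (t : ℂ) * z.2 = (t : ℂ) * (s * z.2) := by ring
        rw [a1, a2, Complex.re_ofReal_mul, Complex.re_ofReal_mul]
        rfl
      rw [e4, hhom t _ ht.le]
    rw [e3]
    have e5 : (fun s : ℂ => t * hK K ((s * z.1).re, (s * z.2).re)) =
        t • (fun s : ℂ => hK K ((s * z.1).re, (s * z.2).re)) := rfl
    rw [e5, Real.circleAverage_smul]
    rfl
  have h2 : Real.circleAverage (fun s : ℂ => Real.log ‖(A : ℂ) * FK K (s • z)‖) 0 t ≤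
      Real.circleAverage (fun s : ℂ => Real.log (A * p) +
        hK K ((s * z.1).re, (s * z.2).re)) 0 t := by
    apply Real.circleAverage_mono
    · have : Differentiable ℂ (fun s : ℂ => (A : ℂ) * FK K (s • z)) := by fun_prop
      exact (MeromorphicOn.circleIntegrable_log_norm
        (fun x _ => (this.analyticAt x).meromorphicAt))
    · exact (Continuous.continuousOn (by fun_prop)).circleIntegrable ht.le
    · intro s hs
      have hs' : ‖s‖ = t := by
        rw [mem_sphere_zero_iff_norm, abs_of_pos ht] at hs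
        exact hs
      have b1 : |hK K ((s * z.1).re, (s * z.2).re)| ≤ M * (t * ‖z‖) := by
        refine (hM _).trans ?_
        gcongr
        rw [Prod.norm_def]
        apply max_le
        · simp only [Real.norm_eq_abs]
          refine (Complex.abs_re_le_norm _).trans ?_
          rw [norm_mul, hs']
          gcongr
          exact norm_fst_le z
        · simp only [Real.norm_eq_abs]
          refine (Complex.abs_re_le_norm _).trans ?_
          rw [norm_mul, hs']
          gcongr
          exact norm_snd_le z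
      have b2 : Real.log (A * p) = M * (t * ‖z‖) + |Real.log p| + Real.log p := by
        rw [Real.log_mul hA0.ne' hp.ne', hA, Real.log_exp]
      have b3 : 0 ≤ Real.log (A * p) + hK K ((s * z.1).re, (s * z.2).re) := by
        rw [b2]
        have := neg_abs_le (Real.log p)
        have := neg_abs_le (hK K ((s * z.1).re, (s * z.2).re))
        linarith
      by_cases hz : FK K (s • z) = 0
      · simp only [hz, mul_zero, norm_zero, Real.log_zero]
        exact b3
      · have c1 := hb (s • z)
        have c2 : 0 < ‖(A : ℂ) * FK K (s • z)‖ :=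
          norm_pos_iff.2 (mul_ne_zero (by exact_mod_cast hA0.ne') hz)
        calc Real.log ‖(A : ℂ) * FK K (s • z)‖
            ≤ Real.log (A * p * Real.exp (hK K ((s * z.1).re, (s * z.2).re))) := by
              apply Real.log_le_log c2
              rw [norm_mul, Complex.norm_real, Real.norm_eq_abs, abs_of_pos hA0, mul_assoc]
              gcongr
              exact c1
          _ = _ := by
              rw [Real.log_mul (mul_pos hA0 hp).ne' (Real.exp_pos _).ne', Real.log_exp]
  rw [h1] at h2
  linarith

/-- lower bound for the Jensen sum at real vectors -/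
theorem J_lower (hROT : T_ROT) (hL0S : T_L0S) (hBAS : T_BAS) (hHS : T_HS) (hHH : T_HH)
    (hJEN : T_JEN) (hLOW : T_LOW) (hJM : T_JM) (K : Set E) (bK : IsBody K) :
    ∃ C ≥ 0, ∀ (x : ℝ × ℝ) t, 0 < t →
      t * hh K (cx x) - C * Real.log (2 + t * ‖x‖) ≤ J (oF (FK K)) (cx x) t := by
  obtain ⟨hd, hp, hp', -, hb, -⟩ := hBAS K bK
  obtain ⟨hadd, hhom, ⟨M, hM0, hM⟩, hcont, hwid⟩ := hHS K bK
  obtain ⟨C, hC, hL⟩ := L0both hROT hL0S hBAS hHS K bK
  set p := (FK K 0).re with hpdef
  have hK0 : FK K 0 = (p : ℂ) := Complex.ext rfl (by simp [hp'])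
  have hFK0 : ‖FK K 0‖ = p := by
    rw [hK0, Complex.norm_real, Real.norm_eq_abs, abs_of_pos hp]
  obtain ⟨C', hC', hlow⟩ := hLOW C p (M + 1) hC hp (by linarith)
  refine ⟨2 * C', by positivity, fun x t ht => ?_⟩
  by_cases hx : x = 0
  · subst hx
    have h1 := (hHH K bK).2.2.2 0
    have h2 : hK K 0 = 0 := by
      have := hhom 0 0 le_rfl
      simpa using this
    have h3 : cx (0 : ℝ × ℝ) = 0 := by simp [cx]
    have h4 : J (oF (FK K)) 0 t = 0 :=
      (hJM (FK K) (oF (FK K)) hd (by rw [hK0]; exact_mod_cast hp.ne') (fun _ _ => le_rfl)).2.2.1 t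
    rw [h3] at h1 ⊢
    rw [h4, h1]
    simp only [neg_zero, h2, add_zero, zero_div, mul_zero, norm_zero, zero_sub,
      Left.neg_nonpos_iff]
    have := Real.log_nonneg (by norm_num : (1 : ℝ) ≤ 2)
    positivity
  · set v : ℝ × ℝ := (en x)⁻¹ • x with hv
    have he := en_pos hx
    have hv1 : v.1 ^ 2 + v.2 ^ 2 = 1 := unit_of hx
    have hxv : x = en x • v := (en_smul_unit hx).symm
    have hvn : ‖v‖ ≤ 1 := by
      rw [Prod.norm_def]
      apply max_le
      · rw [Real.norm_eq_abs]
        exact abs_le_one_iff_mul_self_le_one.2 (by nlinarith [sq_nonneg v.2])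
      · rw [Real.norm_eq_abs]
        exact abs_le_one_iff_mul_self_le_one.2 (by nlinarith [sq_nonneg v.1])
    have hv0 : v ≠ 0 := by
      rintro h
      rw [h] at hv1
      norm_num at hv1
    have h1 := hlow (fun l => FK K (l • cx v)) (hK K v) (hK K (-v))
      ((hM v).trans (by nlinarith)) ((hM (-v)).trans (by rw [norm_neg]; nlinarith))
      (hwid v hv0).le (by fun_prop) (by simp only [zero_smul]; exact hFK0) (by
        intro l
        have c1 := hb (l • cx v)
        rw [re_pair] at c1
        refine c1.trans ?_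
        gcongr
        rcases le_total 0 l.re with h0 | h0
        · rw [hhom _ _ h0]
          exact le_max_left _ _
        · have e : l.re • v = (-l.re) • (-v) := by simp
          rw [e, hhom _ _ (by linarith)]
          exact le_max_right _ _) (by
        intro l hl
        exact hL v hv1 l hl) (t * en x) (by positivity)
    have h2 := hJEN (FK K) hd (by rw [hK0]; exact_mod_cast hp.ne') (cx x) t ht
    rw [h2, hFK0]
    have h3 : Real.circleAverage (fun s : ℂ => Real.log ‖FK K (s • cx x)‖) 0 t =
        Real.circleAverage (fun l => Real.log ‖FK K (l • cx v)‖) 0 (t * en x) := by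
      rw [← circleAverage_scale]
      congr 1
      funext s
      rw [mul_smul, ← cx_smul, ← hxv]
    rw [h3]
    have h4 : hh K (cx x) = en x * ((hK K v + hK K (-v)) / π) := by
      rw [(hHH K bK).2.2.2 x]
      have e1 : hK K x = en x * hK K v := by
        conv_lhs => rw [hxv]
        exact hhom _ _ he.le
      have e2 : hK K (-x) = en x * hK K (-v) := by
        conv_lhs => rw [hxv, ← smul_neg]
        exact hhom _ _ he.le
      rw [e1, e2]; ring
    have h5 : Real.log (2 + t * en x) ≤ 2 * Real.log (2 + t * ‖x‖) := by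
      have e1 : 2 * Real.log (2 + t * ‖x‖) = Real.log ((2 + t * ‖x‖) ^ 2) := by
        rw [Real.log_pow]; norm_num
      rw [e1]
      apply Real.log_le_log (by positivity)
      have := en_le x
      have : t * en x ≤ t * (2 * ‖x‖) := by gcongr
      nlinarith [norm_nonneg x, mul_nonneg ht.le (norm_nonneg x)]
    rw [h4]
    have h6 : C' * Real.log (2 + t * en x) ≤ 2 * C' * Real.log (2 + t * ‖x‖) := by
      calc C' * Real.log (2 + t * en x) ≤ C' * (2 * Real.log (2 + t * ‖x‖)) := by gcongr
        _ = _ := by ring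
    nlinarith

end Pool.Agent.H66.BP
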