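import Pool.Agent.H66.BP.FinC

/-! # Assembly, part D: the dichotomy at a typical direction -/

open MeasureTheory Set Filter Topology Metric
open scoped Real ENNReal NNReal ComplexConjugate

namespace Pool.Agent.H66.BP

/-- the function is `o(t)` -/
def Small (g : ℝ → ℝ) : Prop := ∀ ε > 0, ∀ᶠ t in atTop, g t ≤ ε * t

/-- the Jensen data of a splitting -/
theorem jdata (hROT : T_ROT) (hL0S : T_L0S) (hBAS : T_BAS) (hHS : T_HS) (hHH : T_HH)
    (hJEN : T_JEN) (hLOW : T_LOW) (hJM : T_JM) (hJC : T_JC) (K : Set E) (bK : IsBody K)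
    (P Q : ℂ × ℂ → ℂ → ℕ) (hPQ : ∀ z ζ, P z ζ + Q z ζ = oF (FK K) z ζ)
    (hhom : ∀ (c : ℂ) z ζ, c ≠ 0 → P (c • z) ζ = P z (c * ζ) ∧ Q (c • z) ζ = Q z (c * ζ))
    (hP : Reg P) (hQ : Reg Q) :
    ∃ D : JData, D.JP = J P ∧ D.JQ = J Q ∧ D.m = hh K := by
  obtain ⟨hd, hp, hp', -, hb, -⟩ := hBAS K bK
  have hK0 : FK K 0 ≠ 0 := by
    intro h
    rw [h] at hp
    simp at hp
  obtain ⟨madd, mhom, ⟨M, hM0, hM⟩, -⟩ := hHH K bK
  obtain ⟨C, hC0, hC⟩ := J_lower hROT hL0S hBAS hHS hHH hJEN hLOW hJM K bK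
  have hle1 : ∀ z ζ, P z ζ ≤ oF (FK K) z ζ := fun z ζ => by rw [← hPQ]; omega
  have hle2 : ∀ z ζ, Q z ζ ≤ oF (FK K) z ζ := fun z ζ => by rw [← hPQ]; omega
  obtain ⟨p1, p2, p3, p4, p5, -⟩ := hJM (FK K) P hd hK0 hle1
  obtain ⟨q1, q2, q3, q4, -, -⟩ := hJM (FK K) Q hd hK0 hle2
  have hsum := p5 Q hPQ
  exact ⟨{  JP := J P
            JQ := J Q
            m := hh K
            M := M
            C := C
            hM := hM0
            hC := hC0
            P0 := p1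
            Q0 := q1
            Psub := fun z d t ht => hJC (FK K) P hd hK0 hle1 hP z d t ht
            Qsub := fun z d t ht => hJC (FK K) Q hd hK0 hle2 hQ z d t ht
            Phom := fun c z t hc => p4 c z t hc (fun ζ => (hhom c z ζ hc).1)
            Qhom := fun c z t hc => q4 c z t hc (fun ζ => (hhom c z ζ hc).2)
            Pzero := p3
            Qzero := q3
            Pmono := p2
            Qmono := q2
            upper := fun z t ht => by
              rw [hsum]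
              exact J_upper hBAS hHS hJEN K bK z t ht
            lower := fun x t ht => by
              rw [hsum]
              exact hC x t ht
            madd := madd
            mhom := mhom
            mbd := hM }, rfl, rfl, rfl⟩

lemma oF_ne_zero {F : ℂ × ℂ → ℂ} (hF : Differentiable ℂ F) {z : ℂ × ℂ} {ζ : ℂ}
    (h : oF F z ζ ≠ 0) : F (ζ • z) = 0 := by
  by_contra h0
  apply h
  have hf : AnalyticAt ℂ (fun ξ : ℂ => F (ξ • z)) ζ := by
    have : Differentiable ℂ (fun ξ : ℂ => F (ξ • z)) := by fun_prop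
    exact this.analyticAt ζ
  unfold oF
  rw [analyticOrderNatAt, hf.analyticOrderAt_eq_zero.2 h0]
  rfl

lemma smul_cx_one (l : ℂ) (w : ℝ) : l • cx (1, w) = (l, l * w) := by
  simp [cx]

/-- densities of complementary measures -/
lemma dens_compl (m μ ν : Measure ℝ) [IsFiniteMeasure μ] [IsFiniteMeasure ν] (hm : m = μ + ν)
    (w₀ k : ℝ) (h : Dens m μ w₀ k) : Dens m ν w₀ (1 - k) := by
  intro ε hε
  filter_upwards [h ε hε] with r hr f hf1 hf2 hf3 hf4
  have := hr f hf1 hf2 hf3 hf4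
  have i1 : Integrable f μ := by
    refine Integrable.of_bound hf1.aestronglyMeasurable 1 (ae_of_all _ fun x => ?_)
    rw [Real.norm_eq_abs, abs_of_nonneg (hf2 x)]
    exact hf3 x
  have i2 : Integrable f ν := by
    refine Integrable.of_bound hf1.aestronglyMeasurable 1 (ae_of_all _ fun x => ?_)
    rw [Real.norm_eq_abs, abs_of_nonneg (hf2 x)]
    exact hf3 x
  have e : ∫ x, f x ∂m = ∫ x, f x ∂μ + ∫ x, f x ∂ν := by
    rw [hm, integral_add_measure i1 i2]
  have e2 : ∫ x, f x ∂ν - (1 - k) * ∫ x, f x ∂m = -(∫ x, f x ∂μ - k * ∫ x, f x ∂m) := by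
    rw [e]; ring
  rw [e2, abs_neg]
  exact this

/-- **The dichotomy.** -/
theorem dich (hROT : T_ROT) (hL0S : T_L0S) (hBAS : T_BAS) (hHS : T_HS) (hHH : T_HH)
    (hJEN : T_JEN) (hLOW : T_LOW) (hJM : T_JM) (hJC : T_JC) (hNEG : T_NEG) (hWQ : T_WQ)
    (hSTEP : T_STEP)
    (K H : Set E) (bK : IsBody K) (bH : IsBody H) (S S' : Strip)
    (hS : ∀ z, FK K z = S.F z) (hS' : ∀ z, FK H z = S'.F z)
    (hW : ∀ w, S.hT w - S.gB w = S'.hT w - S'.gB w)
    (hm : S.μT + S.μB = S'.μT + S'.μB)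
    (hF : ∀ z, FK K z * FK K (-z) * (FK H 0) ^ 2 = FK H z * FK H (-z) * (FK K 0) ^ 2)
    (P Q : ℂ × ℂ → ℂ → ℕ) (hPQ : ∀ z ζ, P z ζ + Q z ζ = oF (FK K) z ζ)
    (hPQ' : ∀ z ζ, P z (-ζ) + Q z ζ = oF (FK H) z ζ)
    (hhom : ∀ (c : ℂ) z ζ, c ≠ 0 → P (c • z) ζ = P z (c * ζ) ∧ Q (c • z) ζ = Q z (c * ζ))
    (hP : Reg P) (hQ : Reg Q) (w₀ k κ : ℝ)
    (hk : Dens (S.μT + S.μB) S.μT w₀ k) (hκ : Dens (S.μT + S.μB) S'.μT w₀ κ)
    (hD : Dbl (S.μT + S.μB) w₀) :
    (κ ≠ k → Small (J Q (cx (1, w₀)))) ∧ (κ ≠ 1 - k → Small (J P (cx (1, w₀)))) ∧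
      (κ = k ∨ κ = 1 - k) := by
  obtain ⟨hdK, hpK, hpK', -, -, -⟩ := hBAS K bK
  obtain ⟨hdH, hpH, hpH', -, -, -⟩ := hBAS H bH
  set p := (FK K 0).re with hp
  set q := (FK H 0).re with hq
  have hK0 : FK K 0 = (p : ℂ) := Complex.ext rfl (by simp [hpK'])
  have hH0 : FK H 0 = (q : ℂ) := Complex.ext rfl (by simp [hpH'])
  have hK00 : FK K 0 ≠ 0 := by rw [hK0]; exact_mod_cast hpK.ne'
  -- the data
  obtain ⟨D, hDP, hDQ, hDm⟩ := jdata hROT hL0S hBAS hHS hHH hJEN hLOW hJM hJC K bK P Q hPQ hhom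
    hP hQ
  obtain ⟨D', hDP', hDQ', hDm'⟩ := jdata hROT hL0S hBAS hHS hHH hJEN hLOW hJM hJC K bK Q P
    (fun z ζ => by rw [add_comm]; exact hPQ z ζ) (fun c z ζ hc => (hhom c z ζ hc).symm) hQ hP
  -- zero bounds
  obtain ⟨C₁, hC₁, h₁⟩ := zer hROT hL0S hBAS hHS K bK w₀
  obtain ⟨C₂, hC₂, h₂⟩ := zer hROT hL0S hBAS hHS H bH w₀
  have hz1 : ∀ w : ℝ, |w - w₀| ≤ 1 / 4 → ∀ l : ℂ, FK K (l, l * w) = 0 →
      |l.re| ≤ max C₁ C₂ * Real.log (2 + |l.im|) := by
    intro w hw l hl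
    refine (h₁ w hw l hl).trans ?_
    gcongr
    · exact Real.log_nonneg (by linarith [abs_nonneg l.im])
    · exact le_max_left _ _
  have hz2 : ∀ w : ℝ, |w - w₀| ≤ 1 / 4 → ∀ l : ℂ, FK H (l, l * w) = 0 →
      |l.re| ≤ max C₁ C₂ * Real.log (2 + |l.im|) := by
    intro w hw l hl
    refine (h₂ w hw l hl).trans ?_
    gcongr
    · exact Real.log_nonneg (by linarith [abs_nonneg l.im])
    · exact le_max_right _ _
  have hneg : ∀ (L : Set E) (w : ℝ) (l : ℂ), FK L (-(l, l * (w : ℂ))) = FK L (-l, -l * w) := by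
    intro L w l
    congr 1
    simp
  have hz1n : ∀ w : ℝ, |w - w₀| ≤ 1 / 4 → ∀ l : ℂ, FK K (-(l, l * (w : ℂ))) = 0 →
      |l.re| ≤ max C₁ C₂ * Real.log (2 + |l.im|) := by
    intro w hw l hl
    rw [hneg] at hl
    simpa using hz1 w hw (-l) hl
  have hz2n : ∀ w : ℝ, |w - w₀| ≤ 1 / 4 → ∀ l : ℂ, FK H (-(l, l * (w : ℂ))) = 0 →
      |l.re| ≤ max C₁ C₂ * Real.log (2 + |l.im|) := by
    intro w hw l hl
    rw [hneg] at hl
    simpa using hz2 w hw (-l) hl
  have hC0 : 0 < max C₁ C₂ := lt_max_of_lt_left hC₁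
  obtain ⟨-, nF, nT, nB, nh, ng⟩ := hNEG S
  obtain ⟨-, nF', nT', nB', nh', ng'⟩ := hNEG S'
  -- the identity
  have hid : ∀ z, ((q : ℂ) * S.F z) * (q * S.F (-z)) = (p * S'.F z) * (p * S'.F (-z)) := by
    intro z
    have := hF z
    rw [hK0, hH0] at this
    rw [← hS, ← hS, ← hS', ← hS']
    linear_combination this
  -- consequence of a window without Q
  have useQ : (∃ θ : ℝ, 1 < θ ∧ ∀ η > 0, ∀ᶠ t in atTop, ∃ w : ℝ, |w - w₀| ≤ η ∧
      ∀ l : ℂ, t ≤ ‖l‖ → ‖l‖ ≤ θ ^ 2 * t → ¬ (FK K (l, l * w) = 0 ∧ FK H (l, l * w) = 0)) →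
      Small (J Q (cx (1, w₀))) := by
    rintro ⟨θ, hθ, h⟩
    have := hWQ D w₀ θ hθ (by
      intro η hη
      filter_upwards [h η hη, eventually_gt_atTop (0 : ℝ)] with t ⟨w, hw, ht⟩ ht0
      refine ⟨w, hw, ?_⟩
      rw [hDQ]
      apply (hJM (FK K) Q hdK hK00 (fun z ζ => by rw [← hPQ]; omega)).2.2.2.2.2 _ t θ ht0 hθ
      intro ζ h1 h2
      by_contra h3
      apply ht ζ h1 h2
      rw [← smul_cx_one]
      exact ⟨oF_ne_zero hdK (by rw [← hPQ]; omega), oF_ne_zero hdH (by rw [← hPQ']; omega)⟩)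
    rw [hDQ] at this
    exact this
  have useP : (∃ θ : ℝ, 1 < θ ∧ ∀ η > 0, ∀ᶠ t in atTop, ∃ w : ℝ, |w - w₀| ≤ η ∧
      ∀ l : ℂ, t ≤ ‖l‖ → ‖l‖ ≤ θ ^ 2 * t →
        ¬ (FK K (l, l * w) = 0 ∧ FK H (-(l, l * w)) = 0)) →
      Small (J P (cx (1, w₀))) := by
    rintro ⟨θ, hθ, h⟩
    have := hWQ D' w₀ θ hθ (by
      intro η hη
      filter_upwards [h η hη, eventually_gt_atTop (0 : ℝ)] with t ⟨w, hw, ht⟩ ht0
      refine ⟨w, hw, ?_⟩
      rw [hDQ']
      apply (hJM (FK K) P hdK hK00 (fun z ζ => by rw [← hPQ]; omega)).2.2.2.2.2 _ t θ ht0 hθ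
      intro ζ h1 h2
      by_contra h3
      apply ht ζ h1 h2
      rw [← smul_cx_one, ← neg_smul]
      refine ⟨oF_ne_zero hdK (by rw [← hPQ]; omega), oF_ne_zero hdH ?_⟩
      rw [← hPQ', neg_neg]
      omega)
    rw [hDQ'] at this
    exact this
  have hm' : S.neg.μT + S.neg.μB = S.μT + S.μB := by rw [nT, nB, add_comm]
  have hm'' : S'.neg.μT + S'.neg.μB = S.μT + S.μB := by rw [nT', nB', add_comm, hm]
  have hkn : Dens (S.μT + S.μB) S.neg.μT w₀ (1 - k) := by
    rw [nT]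
    exact dens_compl _ _ _ rfl _ _ hk
  have hκn : Dens (S.μT + S.μB) S'.neg.μT w₀ (1 - κ) := by
    rw [nT']
    exact dens_compl _ _ _ hm _ _ hκ
  have hWn : ∀ w, S.neg.hT w - S.neg.gB w = S.hT w - S.gB w := fun w => by
    rw [nh, ng]; ring
  have hWn' : ∀ w, S'.neg.hT w - S'.neg.gB w = S'.hT w - S'.gB w := fun w => by
    rw [nh', ng']; ring
  -- (1)
  have s1 : q ^ 2 * k ≠ p ^ 2 * κ → Small (J Q (cx (1, w₀))) := by
    intro hne
    obtain ⟨θ, hθ, h⟩ := hSTEP S S' w₀ k κ q p (max C₁ C₂) hpH hpK hC0 hm hW hid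
      (by
        intro w hw l hl
        rw [← hS, ← hS'] at hl
        rcases hl with hl | hl
        · exact hz1 w hw l hl
        · exact hz2 w hw l hl) hk hκ hD hne
    apply useQ
    refine ⟨θ, hθ, fun η hη => ?_⟩
    filter_upwards [h η hη] with t ⟨w, hw, ht⟩
    refine ⟨w, hw, fun l h1 h2 => ?_⟩
    rw [hS, hS']
    exact ht l h1 h2
  -- (2)
  have s2 : q ^ 2 * (1 - k) ≠ p ^ 2 * (1 - κ) → Small (J Q (cx (1, w₀))) := by
    intro hne
    obtain ⟨θ, hθ, h⟩ := hSTEP S.neg S'.neg w₀ (1 - k) (1 - κ) q p (max C₁ C₂) hpH hpK hC0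
      (by rw [hm', hm'']) (fun w => by rw [hWn, hWn', hW])
      (by
        intro z
        rw [nF, nF, nF', nF', neg_neg]
        linear_combination hid z)
      (by
        intro w hw l hl
        rw [nF, nF', ← hS, ← hS'] at hl
        rcases hl with hl | hl
        · exact hz1n w hw l hl
        · exact hz2n w hw l hl) (by rw [hm']; exact hkn) (by rw [hm']; exact hκn)
      (by rw [hm']; exact hD) hne
    apply useQ
    refine ⟨θ, hθ, fun η hη => ?_⟩
    filter_upwards [h η hη] with t ⟨w, hw, ht⟩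
    refine ⟨w, hw, fun l h1 h2 => ?_⟩
    have := ht (-l) (by rwa [norm_neg]) (by rwa [norm_neg])
    rw [nF, nF', ← hS, ← hS'] at this
    have e : (-(-l, -l * (w : ℂ)) : ℂ × ℂ) = (l, l * w) := by simp
    rw [e] at this
    exact this
  -- (3)
  have s3 : q ^ 2 * k ≠ p ^ 2 * (1 - κ) → Small (J P (cx (1, w₀))) := by
    intro hne
    obtain ⟨θ, hθ, h⟩ := hSTEP S S'.neg w₀ k (1 - κ) q p (max C₁ C₂) hpH hpK hC0
      (by rw [hm'']) (fun w => by rw [hWn', hW])
      (by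
        intro z
        rw [nF', nF', neg_neg]
        linear_combination hid z)
      (by
        intro w hw l hl
        rw [nF', ← hS, ← hS'] at hl
        rcases hl with hl | hl
        · exact hz1 w hw l hl
        · exact hz2n w hw l hl) hk hκn hD hne
    apply useP
    refine ⟨θ, hθ, fun η hη => ?_⟩
    filter_upwards [h η hη] with t ⟨w, hw, ht⟩
    refine ⟨w, hw, fun l h1 h2 => ?_⟩
    have := ht l h1 h2
    rw [nF', ← hS, ← hS'] at this
    exact this
  -- (4)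
  have s4 : q ^ 2 * (1 - k) ≠ p ^ 2 * κ → Small (J P (cx (1, w₀))) := by
    intro hne
    obtain ⟨θ, hθ, h⟩ := hSTEP S.neg S' w₀ (1 - k) κ q p (max C₁ C₂) hpH hpK hC0
      (by rw [hm', hm]) (fun w => by rw [hWn, hW])
      (by
        intro z
        rw [nF, nF, neg_neg]
        linear_combination hid z)
      (by
        intro w hw l hl
        rw [nF, ← hS, ← hS'] at hl
        rcases hl with hl | hl
        · exact hz1n w hw l hl
        · exact hz2 w hw l hl) (by rw [hm']; exact hkn) (by rw [hm']; exact hκ)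
      (by rw [hm']; exact hD) hne
    apply useP
    refine ⟨θ, hθ, fun η hη => ?_⟩
    filter_upwards [h η hη] with t ⟨w, hw, ht⟩
    refine ⟨w, hw, fun l h1 h2 => ?_⟩
    have := ht (-l) (by rwa [norm_neg]) (by rwa [norm_neg])
    rw [nF, ← hS, ← hS'] at this
    have e : (-(-l, -l * (w : ℂ)) : ℂ × ℂ) = (l, l * w) := by simp
    have e' : ((-l, -l * (w : ℂ)) : ℂ × ℂ) = -(l, l * w) := by simp
    rw [e, e'] at this
    exact this
  -- not both small
  have hnot : ¬ (Small (J Q (cx (1, w₀))) ∧ Small (J P (cx (1, w₀)))) := by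
    rintro ⟨hQs, hPs⟩
    set x : ℝ × ℝ := (1, w₀) with hx
    have hx0 : x ≠ 0 := by
      intro h
      have := congrArg Prod.fst h
      simp [hx] at this
    have hpos : 0 < D.m (cx x) := by
      rw [hDm, (hHH K bK).2.2.2 x]
      have := (hHS K bK).2.2.2.2 x hx0
      positivity
    set c := D.m (cx x) with hc
    have hlog : ∀ᶠ t : ℝ in atTop, D.C * Real.log (2 + t * ‖x‖) ≤ c / 4 * t := by
      have hxn : 0 < ‖x‖ := norm_pos_iff.2 hx0
      have h1 : Tendsto (fun t : ℝ => 2 + t * ‖x‖) atTop atTop :=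
        tendsto_atTop_add_const_left _ _ (tendsto_id.atTop_mul_const hxn)
      have h2 := (Real.isLittleO_log_id_atTop.comp_tendsto h1).def
        (c := c / (8 * (D.C + 1) * ‖x‖)) (by have := D.hC; positivity)
      filter_upwards [h2, eventually_ge_atTop (2 / ‖x‖), eventually_gt_atTop (0 : ℝ)] with t ht ht2
        ht0
      simp only [Function.comp, id, Real.norm_eq_abs] at ht
      have hDC := D.hC
      have h3 : Real.log (2 + t * ‖x‖) ≤ c / (8 * (D.C + 1) * ‖x‖) * (2 + t * ‖x‖) := by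
        refine (le_abs_self _).trans (ht.trans ?_)
        rw [abs_of_nonneg (by positivity : (0 : ℝ) ≤ 2 + t * ‖x‖)]
      have h4 : 2 ≤ t * ‖x‖ := by
        rw [div_le_iff₀ hxn] at ht2
        exact ht2
      calc D.C * Real.log (2 + t * ‖x‖)
          ≤ (D.C + 1) * (c / (8 * (D.C + 1) * ‖x‖) * (2 * (t * ‖x‖))) := by
            have h5 : 0 ≤ Real.log (2 + t * ‖x‖) := Real.log_nonneg (by linarith)
            have h6 : c / (8 * (D.C + 1) * ‖x‖) * (2 + t * ‖x‖) ≤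
                c / (8 * (D.C + 1) * ‖x‖) * (2 * (t * ‖x‖)) := by
              gcongr
              linarith
            calc D.C * Real.log (2 + t * ‖x‖) ≤ (D.C + 1) * Real.log (2 + t * ‖x‖) := by
                  nlinarith
              _ ≤ _ := by
                  gcongr
                  exact h3.trans h6
        _ = c / 4 * t := by
            field_simp
            ring
    obtain ⟨t, h1, h2, h3, h4⟩ := ((hQs (c / 8) (by positivity)).and
      ((hPs (c / 8) (by positivity)).and (hlog.and (eventually_gt_atTop (0 : ℝ))))).exists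
    have h5 := D.lower x t h4
    rw [hDP, hDQ] at h5
    nlinarith
  have hpq : p ^ 2 = q ^ 2 → p = q := fun h => by
    have := (sq_eq_sq₀ hpK.le hpH.le).1 h
    exact this
  have c1 : ¬ Small (J Q (cx (1, w₀))) → κ = k := by
    intro hn
    have e1 : q ^ 2 * k = p ^ 2 * κ := by
      by_contra h; exact hn (s1 h)
    have e2 : q ^ 2 * (1 - k) = p ^ 2 * (1 - κ) := by
      by_contra h; exact hn (s2 h)
    have e3 : p ^ 2 = q ^ 2 := by linarith
    rw [e3] at e1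
    have : (0 : ℝ) < q ^ 2 := by positivity
    exact (mul_left_cancel₀ this.ne' e1).symm
  have c2 : ¬ Small (J P (cx (1, w₀))) → κ = 1 - k := by
    intro hn
    have e1 : q ^ 2 * k = p ^ 2 * (1 - κ) := by
      by_contra h; exact hn (s3 h)
    have e2 : q ^ 2 * (1 - k) = p ^ 2 * κ := by
      by_contra h; exact hn (s4 h)
    have e3 : p ^ 2 = q ^ 2 := by linarith
    rw [e3] at e2
    have : (0 : ℝ) < q ^ 2 := by positivity
    exact (mul_left_cancel₀ this.ne' e2).symm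
  refine ⟨fun h => ?_, fun h => ?_, ?_⟩
  · by_contra h'; exact h (c1 h')
  · by_contra h'; exact h (c2 h')
  · by_cases h : Small (J Q (cx (1, w₀)))
    · right
      exact c2 (fun h' => hnot ⟨h, h'⟩)
    · left; exact c1 h

end Pool.Agent.H66.BP
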