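import Pool.Agent.H66.BP.FinD

/-! # Assembly, part E: the theorem from the targets -/

open MeasureTheory Set Filter Topology Metric
open scoped Real ENNReal NNReal ComplexConjugate

namespace Pool.Agent.H66.BP

/-- support functions which agree up to an affine function on the chart -/
lemma chart_ext (f g : ℝ × ℝ → ℝ) (hf : Continuous f) (hg : Continuous g)
    (hf1 : ∀ (c : ℝ) u, 0 ≤ c → f (c • u) = c * f u) (hg1 : ∀ (c : ℝ) u, 0 ≤ c → g (c • u) = c * g u)
    (hw : ∀ u, f u + f (-u) = g u + g (-u)) (A B : ℝ) (h : ∀ w, f (1, w) = g (1, w) + (A + B * w)) :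
    ∀ u : ℝ × ℝ, f u = g u + (A * u.1 + B * u.2) := by
  have hpos : ∀ u : ℝ × ℝ, 0 < u.1 → f u = g u + (A * u.1 + B * u.2) := by
    intro u hu
    have e : u = u.1 • ((1 : ℝ), u.2 / u.1) := by
      refine Prod.ext (by simp) ?_
      simp only [Prod.smul_snd, smul_eq_mul]
      field_simp
    conv_lhs => rw [e]
    conv_rhs => rw [e]
    rw [hf1 _ _ hu.le, hg1 _ _ hu.le, h]
    simp only [Prod.smul_fst, Prod.smul_snd, smul_eq_mul]
    ring
  have hne : ∀ u : ℝ × ℝ, u.1 ≠ 0 → f u = g u + (A * u.1 + B * u.2) := by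
    intro u hu
    rcases lt_or_gt_of_ne hu with h1 | h1
    · have h2 := hpos (-u) (by simpa using h1)
      have h3 := hw u
      simp only [Prod.fst_neg, Prod.snd_neg] at h2
      linarith
    · exact hpos u h1
  have hdense : Dense {u : ℝ × ℝ | u.1 ≠ 0} := by
    have h1 : Dense ({0}ᶜ : Set ℝ) := dense_compl_singleton 0
    have h2 : Dense (({0}ᶜ : Set ℝ) ×ˢ (univ : Set ℝ)) := h1.prod dense_univ
    refine h2.mono ?_
    rintro ⟨x, y⟩ ⟨hx, -⟩
    exact hx
  have hcl : IsClosed {u : ℝ × ℝ | f u = g u + (A * u.1 + B * u.2)} :=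
    isClosed_eq hf (by fun_prop)
  intro u
  have : u ∈ closure {u : ℝ × ℝ | u.1 ≠ 0} := hdense u
  exact hcl.closure_subset_iff.2 (fun v hv => hne v hv) this

/-- an affine difference of support functions gives equal slope measures -/
lemma meas_of_affine (hSUPD : T_SUPD) (X Y : Strip) (A B : ℝ)
    (h : ∀ w, X.hT w = Y.hT w + (A + B * w)) : X.μT = Y.μT := by
  have h1 : ∀ w, X.a + (X.μT (Iic w)).toReal = Y.a + (Y.μT (Iic w)).toReal + B := by
    intro w
    have a1 := hSUPD X w
    have a2 := hSUPD Y w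
    have a3 : HasDerivWithinAt (fun w => A + B * w) B (Ioi w) w := by
      have := ((hasDerivWithinAt_id w (Ioi w)).const_mul B).const_add A
      simpa using this
    have a4 := a2.add a3
    have e : (Y.hT + fun w => A + B * w) = X.hT := by
      funext w; exact (h w).symm
    rw [e] at a4
    exact (uniqueDiffWithinAt_Ioi w).eq_deriv _ a1 a4
  have t1 := (tendsto_Iic_toReal X.μT).const_add X.a
  have t2 := ((tendsto_Iic_toReal Y.μT).const_add Y.a).add_const B
  have e : (fun w => X.a + (X.μT (Iic w)).toReal) =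
      fun w => Y.a + (Y.μT (Iic w)).toReal + B := funext h1
  rw [e] at t1
  have h2 := tendsto_nhds_unique t1 t2
  simp only [add_zero] at h2
  apply Measure.ext_of_Iic
  intro w
  have h3 := h1 w
  rw [h2] at h3
  have h4 : (X.μT (Iic w)).toReal = (Y.μT (Iic w)).toReal := by linarith
  exact (ENNReal.toReal_eq_toReal_iff' (measure_ne_top _ _) (measure_ne_top _ _)).1 h4

/-- equal slope measures give an affine difference of the support functions -/
lemma affine_of_meas (hSUPD : T_SUPD) (X Y : Strip) (hX : Continuous X.hT) (hY : Continuous Y.hT)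
    (h : X.μT = Y.μT) : ∃ A B : ℝ, ∀ w, X.hT w = Y.hT w + (A + B * w) := by
  set B := X.a - Y.a with hB
  set f : ℝ → ℝ := fun w => X.hT w - Y.hT w - B * w with hf
  have hfc : Continuous f := by fun_prop
  have hfd : ∀ w, HasDerivWithinAt f 0 (Ici w) w := by
    intro w
    apply HasDerivWithinAt.Ici_of_Ioi
    have a1 := hSUPD X w
    have a2 := hSUPD Y w
    rw [← h] at a2
    have a3 : HasDerivWithinAt (fun w => B * w) B (Ioi w) w := by
      have := ((hasDerivWithinAt_id w (Ioi w)).const_mul B)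
      simpa using this
    have a4 := (a1.sub a2).sub a3
    have e : X.a + (X.μT (Iic w)).toReal - (Y.a + (X.μT (Iic w)).toReal) - B = 0 := by
      rw [hB]; ring
    rw [e] at a4
    exact a4
  have hconst : ∀ w, f w = f 0 := by
    intro w
    rcases le_total 0 w with hw | hw
    · exact constant_of_has_deriv_right_zero hfc.continuousOn (fun x _ => hfd x) w
        ⟨hw, le_rfl⟩
    · exact (constant_of_has_deriv_right_zero (a := w) (b := 0) hfc.continuousOn
        (fun x _ => hfd x) 0 ⟨hw, le_rfl⟩).symm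
  refine ⟨f 0, B, fun w => ?_⟩
  have := hconst w
  simp only [hf] at this ⊢
  linarith

/-- densities determine the measure -/
lemma eq_of_rnDeriv (m μ ν : Measure ℝ) [IsFiniteMeasure m] [IsFiniteMeasure μ]
    [IsFiniteMeasure ν] (h1 : μ ≪ m) (h2 : ν ≪ m)
    (h : ∀ᵐ w ∂m, (μ.rnDeriv m w).toReal = (ν.rnDeriv m w).toReal) : μ = ν := by
  rw [← Measure.withDensity_rnDeriv_eq μ m h1, ← Measure.withDensity_rnDeriv_eq ν m h2]
  apply withDensity_congr_ae
  filter_upwards [h, μ.rnDeriv_ne_top m, ν.rnDeriv_ne_top m] with w a1 a2 a3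
  exact (ENNReal.toReal_eq_toReal_iff' a2 a3).1 a1

/-- the densities of the two parts add up to one -/
lemma rnDeriv_sum (μ ν : Measure ℝ) [IsFiniteMeasure μ] [IsFiniteMeasure ν] :
    ∀ᵐ w ∂(μ + ν), (μ.rnDeriv (μ + ν) w).toReal + (ν.rnDeriv (μ + ν) w).toReal = 1 := by
  have h1 := Measure.rnDeriv_add μ ν (μ + ν)
  have h2 := Measure.rnDeriv_self (μ + ν)
  filter_upwards [h1, h2, μ.rnDeriv_ne_top (μ + ν), ν.rnDeriv_ne_top (μ + ν)] with w a1 a2 a3 a4
  rw [a2] at a1
  rw [← ENNReal.toReal_add a3 a4]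
  rw [Pi.add_apply] at a1
  rw [← a1]
  rfl

end Pool.Agent.H66.BP
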