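import Pool.Agent.H66.BP.FinE

/-! # Assembly, part F: the main theorem from the targets -/

open MeasureTheory Set Filter Topology Metric
open scoped Real ENNReal NNReal ComplexConjugate

namespace Pool.Agent.H66.BP

/-- width of a parallelogram: the support function minus its reflection is linear -/
lemma linear_of_par (hHS : T_HS) (K : Set E) (bK : IsBody K) (u u' : ℝ × ℝ)
    (h : ∀ α β : ℝ, hK K (α • u + β • u') + hK K (-(α • u + β • u')) =
      |α| * (hK K u + hK K (-u)) + |β| * (hK K u' + hK K (-u'))) (α β : ℝ) :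
    hK K (α • u + β • u') - hK K (-(α • u + β • u')) =
      α * (hK K u - hK K (-u)) + β * (hK K u' - hK K (-u')) := by
  obtain ⟨hadd, hhom, -, -, -⟩ := hHS K bK
  have one : ∀ (γ : ℝ) (v : ℝ × ℝ), hK K (γ • v) + hK K (-(γ • v)) =
      |γ| * (hK K v + hK K (-v)) ∧ hK K (γ • v) - hK K (-(γ • v)) =
      γ * (hK K v - hK K (-v)) := by
    intro γ v
    rcases le_total 0 γ with h0 | h0
    · rw [← smul_neg, hhom _ _ h0, hhom _ _ h0, abs_of_nonneg h0]
      constructor <;> ring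
    · have e1 : γ • v = (-γ) • (-v) := by simp
      have e2 : -(γ • v) = (-γ) • v := by simp
      rw [e2, e1, hhom _ _ (by linarith), hhom _ _ (by linarith), abs_of_nonpos h0]
      constructor <;> ring
  have a1 := hadd (α • u) (β • u')
  have a2 := hadd (-(α • u)) (-(β • u'))
  have e : -(α • u) + -(β • u') = -(α • u + β • u') := by
    rw [neg_add]
  rw [e] at a2
  have h1 := h α β
  obtain ⟨b1, b2⟩ := one α u
  obtain ⟨c1, c2⟩ := one β u'
  have d1 : hK K (α • u + β • u') = hK K (α • u) + hK K (β • u') := by linarith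
  have d2 : hK K (-(α • u + β • u')) = hK K (-(α • u)) + hK K (-(β • u')) := by linarith
  rw [d1, d2]
  linarith

/-- **The main theorem, from the targets.** -/
theorem main_of (hSTRIP : T_STRIP) (hREP : T_REP) (hDIFF : T_DIFF) (hHTK : T_HTK)
    (hSUPD : T_SUPD) (hBACK : T_BACK) (hSTAR : T_STAR) (hPAR : T_PAR) (hTYP : T_TYP)
    (hROT : T_ROT) (hL0S : T_L0S) (hBAS : T_BAS) (hHS : T_HS) (hHH : T_HH)
    (hJEN : T_JEN) (hLOW : T_LOW) (hJM : T_JM) (hJC : T_JC) (hNEG : T_NEG) (hWQ : T_WQ)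
    (hSTEP : T_STEP) (K H : Set E) (bK : IsBody K) (bH : IsBody H)
    (hlaw : diffLaw K = diffLaw H) :
    ∃ t : E, H = (fun x => x + t) '' K ∨ H = (fun x => -x + t) '' K := by
  have hF := hDIFF K H bK bH hlaw
  obtain ⟨S, hSK⟩ := hSTRIP K bK
  obtain ⟨S', hSH⟩ := hSTRIP H bH
  have hS : ∀ z, FK K z = S.F z := fun z => by rw [← hSK]; exact (hREP S).2 z
  have hS' : ∀ z, FK H z = S'.F z := fun z => by rw [← hSH]; exact (hREP S').2 z
  have hT1 : ∀ w, S.hT w = hK K (1, w) := fun w => by rw [← hSK]; exact (hHTK S w).1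
  have hT2 : ∀ w, S.gB w = -hK K (-1, -w) := fun w => by rw [← hSK]; exact (hHTK S w).2.1
  have hT1' : ∀ w, S'.hT w = hK H (1, w) := fun w => by rw [← hSH]; exact (hHTK S' w).1
  have hT2' : ∀ w, S'.gB w = -hK H (-1, -w) := fun w => by rw [← hSH]; exact (hHTK S' w).2.1
  have hwid := width_eq hROT hL0S hBAS hHS K H bK bH hF
  have hpair : ∀ w : ℝ, (-((1 : ℝ), w) : ℝ × ℝ) = (-1, -w) := fun w => rfl
  have hW : ∀ w, S.hT w - S.gB w = S'.hT w - S'.gB w := by
    intro w
    rw [hT1, hT2, hT1', hT2']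
    have := hwid (1, w)
    rw [hpair] at this
    linarith
  have hm := measures_eq hNEG hSUPD S S' hW
  obtain ⟨hdK, hpK, hpK', -, -, -⟩ := hBAS K bK
  obtain ⟨hdH, hpH, hpH', -, -, -⟩ := hBAS H bH
  set p := (FK K 0).re with hp
  set q := (FK H 0).re with hq
  have hK0 : FK K 0 = (p : ℂ) := Complex.ext rfl (by simp [hpK'])
  have hH0 : FK H 0 = (q : ℂ) := Complex.ext rfl (by simp [hpH'])
  have hp0 : (p : ℂ) ≠ 0 := by exact_mod_cast hpK.ne'
  have hq0 : (q : ℂ) ≠ 0 := by exact_mod_cast hpH.ne'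
  -- the splitting
  obtain ⟨P, Q, hPQ, hPQ', hhom, hP, hQ⟩ := hSTAR (fun z => (q : ℂ) * FK K z)
    (fun z => (p : ℂ) * FK H z) (by fun_prop) (by fun_prop)
    (by simp only [hK0]; exact mul_ne_zero hq0 hp0) (by simp only [hH0]; exact mul_ne_zero hp0 hq0)
    (by
      intro z
      have := hF z
      rw [hK0, hH0] at this
      linear_combination this)
  rw [oF_const_mul _ hdK _ hq0] at hPQ
  rw [oF_const_mul _ hdH _ hp0] at hPQ'
  have hdich := dich hROT hL0S hBAS hHS hHH hJEN hLOW hJM hJC hNEG hWQ hSTEP K H bK bH S S' hS hS'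
    hW hm hF P Q hPQ hPQ' hhom hP hQ
  set m := S.μT + S.μB with hmdef
  have hle1 : S.μT ≤ m := Measure.le_add_right le_rfl
  have hle2 : S'.μT ≤ m := by rw [hm]; exact Measure.le_add_right le_rfl
  have hle3 : S.μB ≤ m := Measure.le_add_left le_rfl
  obtain ⟨t1, t2⟩ := hTYP m S.μT hle1
  obtain ⟨t3, -⟩ := hTYP m S'.μT hle2
  set k : ℝ → ℝ := fun w => (S.μT.rnDeriv m w).toReal with hk
  set κ : ℝ → ℝ := fun w => (S'.μT.rnDeriv m w).toReal with hκ
  have hsum : ∀ᵐ w ∂m, k w + (S.μB.rnDeriv m w).toReal = 1 := rnDeriv_sum S.μT S.μB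
  -- alternatives
  have halt : (∀ᵐ w ∂m, κ w = k w) ∨ (∀ᵐ w ∂m, κ w = 1 - k w) := by
    by_cases hA : ∀ᵐ w ∂m, κ w = k w
    · exact Or.inl hA
    by_cases hB : ∀ᵐ w ∂m, κ w = 1 - k w
    · exact Or.inr hB
    left
    have fA : ∃ᶠ w in ae m, κ w ≠ k w := Filter.not_eventually.1 hA
    have fB : ∃ᶠ w in ae m, κ w ≠ 1 - k w := Filter.not_eventually.1 hB
    obtain ⟨w₁, n1, d1, d2, d3⟩ := (fA.and_eventually (t1.and (t3.and t2))).exists
    obtain ⟨w₂, n2, e1, e2, e3⟩ := (fB.and_eventually (t1.and (t3.and t2))).exists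
    have s1 := (hdich w₁ (k w₁) (κ w₁) d1 d2 d3).1 n1
    have s2 := (hdich w₂ (k w₂) (κ w₂) e1 e2 e3).2.1 n2
    obtain ⟨D, hDP, hDQ, hDm⟩ := jdata hROT hL0S hBAS hHS hHH hJEN hLOW hJM hJC K bK P Q hPQ hhom
      hP hQ
    have hpar := hPAR D (1, w₂) (1, w₁) (by rw [hDP]; exact s2) (by rw [hDQ]; exact s1)
    have hpar' : ∀ α β : ℝ, hK K (α • ((1 : ℝ), w₂) + β • ((1 : ℝ), w₁)) +
        hK K (-(α • ((1 : ℝ), w₂) + β • ((1 : ℝ), w₁))) =
        |α| * (hK K (1, w₂) + hK K (-(1, w₂))) + |β| * (hK K (1, w₁) + hK K (-(1, w₁))) := by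
      intro α β
      have := hpar α β
      rw [hDm, (hHH K bK).2.2.2, (hHH K bK).2.2.2, (hHH K bK).2.2.2] at this
      have hpi := Real.pi_pos
      field_simp at this
      linarith
    have hne : w₁ - w₂ ≠ 0 := by
      intro h0
      have h1 : w₁ = w₂ := by linarith
      have h2 := hpar' 1 (-1)
      rw [h1] at h2
      have e0 : (1 : ℝ) • ((1 : ℝ), w₂) + (-1 : ℝ) • ((1 : ℝ), w₂) = 0 := by
        ext <;> simp
      rw [e0, neg_zero] at h2
      have h3 : hK K 0 = 0 := by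
        have := (hHS K bK).2.1 0 0 le_rfl
        simpa using this
      have hx0 : ((1 : ℝ), w₂) ≠ (0 : ℝ × ℝ) := by
        intro h
        have := congrArg Prod.fst h
        simp at this
      have h4 := (hHS K bK).2.2.2.2 _ hx0
      rw [h3] at h2
      norm_num at h2
      rw [hpair] at h4
      linarith
    have hlin := linear_of_par hHS K bK (1, w₂) (1, w₁) hpar'
    set c₂ := hK K (1, w₂) - hK K (-(1, w₂)) with hc2
    set c₁ := hK K (1, w₁) - hK K (-(1, w₁)) with hc1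
    -- the support functions of S and of its reflection differ by an affine function
    have haff : ∀ w, S.hT w = S.neg.hT w +
        ((c₂ * w₁ - c₁ * w₂) / (w₁ - w₂) + (c₁ - c₂) / (w₁ - w₂) * w) := by
      intro w
      rw [(hNEG S).2.2.2.2.1 w, hT1, hT2]
      have h1 := hlin ((w₁ - w) / (w₁ - w₂)) ((w - w₂) / (w₁ - w₂))
      have e0 : ((w₁ - w) / (w₁ - w₂)) • ((1 : ℝ), w₂) + ((w - w₂) / (w₁ - w₂)) • ((1 : ℝ), w₁) =
          (1, w) := by
        ext
        · simp only [Prod.fst_add, Prod.smul_fst, smul_eq_mul]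
          field_simp
          ring
        · simp only [Prod.snd_add, Prod.smul_snd, smul_eq_mul]
          field_simp
          ring
      rw [e0, hpair] at h1
      have h2 : hK K (1, w) = hK K (-1, -w) + ((w₁ - w) / (w₁ - w₂) * c₂ +
        (w - w₂) / (w₁ - w₂) * c₁) := by linarith
      rw [h2, neg_neg]
      field_simp
      ring
    have hsym := meas_of_affine hSUPD S S.neg _ _ haff
    rw [(hNEG S).2.2.1] at hsym
    filter_upwards [t1, t2, t3, hsum] with w a1 a2 a3 a4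
    have b1 : k w = 1 / 2 := by
      have : (S.μB.rnDeriv m w).toReal = k w := by
        rw [hk]
        simp only [hsym]
      rw [this] at a4
      linarith
    rcases (hdich w (k w) (κ w) a1 a3 a2).2.2 with h | h
    · exact h
    · rw [h, b1]; norm_num
  have hac1 : S.μT ≪ m := Measure.absolutelyContinuous_of_le hle1
  have hac2 : S'.μT ≪ m := Measure.absolutelyContinuous_of_le hle2
  have hac3 : S.μB ≪ m := Measure.absolutelyContinuous_of_le hle3
  have hcont : ∀ X : Strip, ∀ L : Set E, IsBody L → (∀ w, X.hT w = hK L (1, w)) →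
      Continuous X.hT := by
    intro X L bL hX
    have : X.hT = fun w => hK L (1, w) := funext hX
    rw [this]
    exact ((hHS L bL).2.2.2.1).comp (by fun_prop)
  have cS := hcont S K bK hT1
  have cS' := hcont S' H bH hT1'
  have cN : Continuous S.neg.hT := by
    have : S.neg.hT = fun w => hK K (-1, -w) := by
      funext w
      rw [(hNEG S).2.2.2.2.1 w, hT2, neg_neg]
    rw [this]
    exact ((hHS K bK).2.2.2.1).comp (by fun_prop)
  rcases halt with hA | hB
  · have hμ : S'.μT = S.μT := eq_of_rnDeriv m _ _ hac2 hac1 hA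
    obtain ⟨A, B, hAB⟩ := affine_of_meas hSUPD S' S cS' cS hμ
    have hext := chart_ext (hK H) (hK K) (hHS H bH).2.2.2.1 (hHS K bK).2.2.2.1 (hHS H bH).2.1
      (hHS K bK).2.1 (fun u => (hwid u).symm) A B (fun w => by
        rw [← hT1', ← hT1]; exact hAB w)
    obtain ⟨s, hs⟩ := (hBACK K H bK bH (A, B)).1 hext
    exact ⟨s, Or.inl hs⟩
  · have hμ : S'.μT = S.μB := by
      apply eq_of_rnDeriv m _ _ hac2 hac3
      filter_upwards [hB, hsum] with w a1 a2
      have : (S'.μT.rnDeriv m w).toReal = 1 - k w := a1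
      rw [this]
      linarith
    have hμ' : S'.μT = S.neg.μT := by rw [(hNEG S).2.2.1]; exact hμ
    obtain ⟨A, B, hAB⟩ := affine_of_meas hSUPD S' S.neg cS' cN hμ'
    have hext := chart_ext (hK H) (fun u => hK K (-u)) (hHS H bH).2.2.2.1
      ((hHS K bK).2.2.2.1.comp continuous_neg) (hHS H bH).2.1
      (fun c u hc => by rw [← smul_neg]; exact (hHS K bK).2.1 c (-u) hc)
      (fun u => by rw [neg_neg, add_comm (hK K (-u))]; exact (hwid u).symm) A B (fun w => by
        rw [← hT1', hAB w, (hNEG S).2.2.2.2.1 w, hT2, neg_neg]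
        rfl)
    obtain ⟨s, hs⟩ := (hBACK K H bK bH (A, B)).2 hext
    exact ⟨s, Or.inr hs⟩

end Pool.Agent.H66.BP
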