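import Pool.Agent.H66.BP.All
import Pool.Agent.H36.BP.L0S
import Pool.Agent.H58.BP.LOC
import Pool.Agent.H76.BP.REP

/-! # The main theorem -/

namespace Pool.Agent.H66.BP

theorem main (K H : Set E) (bK : IsBody K) (bH : IsBody H) (hlaw : diffLaw K = diffLaw H) :
    ∃ t : E, H = (fun x => x + t) '' K ∨ H = (fun x => -x + t) '' K := by
  have hALI : T_ALI := Pool.Agent.H58.BP.ali
  have hFRN : T_FRN := Pool.Agent.H97.BP.FRN_proof
  have hGRH : T_GRH := Pool.Agent.H80.BP.grh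
  have hREP : T_REP := Pool.Agent.H76.BP.rep hFRN hGRH hALI
  have hL0S : T_L0S := Pool.Agent.H36.BP.l0s hALI
  have hAP : T_AP := Pool.Agent.H54.BP.AP_proof
  have hWP : T_WP := Pool.Agent.H59.BP.WP.wp hAP
  have hALG : T_ALG := Pool.Agent.H59.BP.ALG.alg
  have hLOC : T_LOC := Pool.Agent.H58.BP.loc hWP hALG
  exact main3 hREP hL0S hLOC K H bK bH hlaw

end Pool.Agent.H66.BP
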